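import Pool.Agent.W868.GDefs

/-!
# Reals added by a subset of a singular cardinal: the definitions

A set `M` of sets (an element of `Set ZFSet.{0}`) is viewed as the structure `(M, ∈)`.
Transitive models of ZFC (`IsZFC`), injections (`IsInj`) are defined in `Pool.Agent.W868.Defs`, the
cardinals of a model (`IsCard`, `IsInfCard`, `IsNextCard`) and the generalized continuum hypothesis
in a model (`GCH`) in `Pool.Agent.W868.GDefs`.
-/

set_option autoImplicit false

namespace Pool.Agent.helper797_mt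

open Pool.Agent.W868
open ZFSet (pair)

/-- In `M`, there is a function from `a` to the ordinal `lam` with unbounded range. -/
def Cofinal (M : Set ZFSet.{0}) (a lam : ZFSet.{0}) : Prop :=
  ∃ f ∈ M, ZFSet.IsFunc a lam f ∧ ∀ β ∈ lam, ∃ x ∈ a, ∃ γ ∈ lam, pair x γ ∈ f ∧ β ∈ γ

/-- In `M`, `lam` is a singular cardinal of uncountable cofinality. -/
def SingUnc (M : Set ZFSet.{0}) (lam : ZFSet.{0}) : Prop :=
  IsInfCard M lam ∧ (∃ a ∈ lam, Cofinal M a lam) ∧ ¬ Cofinal M ZFSet.omega lam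

/-- `H(lam⁺)` of `M`: the sets that are elements of a transitive set of `M` of size at most `lam`
in `M` (that is, the sets of `M` whose transitive closure has size at most `lam` in `M`). -/
def Hp (M : Set ZFSet.{0}) (lam : ZFSet.{0}) : Set ZFSet.{0} :=
  {x | ∃ t ∈ M, (∀ y ∈ t, ∀ z ∈ y, z ∈ t) ∧ x ∈ t ∧ ∃ f ∈ M, IsInj t lam f}

/-- `N` is a transitive model of ZF without the power set axiom. -/
structure IsZFm (N : Set ZFSet.{0}) : Prop where
  trans : ∀ x ∈ N, ∀ y ∈ x, y ∈ N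
  pairing : ∀ x ∈ N, ∀ y ∈ N, ({x, y} : ZFSet.{0}) ∈ N
  union : ∀ x ∈ N, ZFSet.sUnion x ∈ N
  infinity : ZFSet.omega ∈ N
  separation : ∀ φ : Fml ZFSet.{0} 1, φ.Over N → ∀ x ∈ N, ∃ y ∈ N, ∀ z,
    z ∈ y ↔ z ∈ x ∧ Sat N id φ ![z]
  replacement : ∀ φ : Fml ZFSet.{0} 2, φ.Over N → ∀ x ∈ N,
    (∀ z ∈ x, ∃! w, w ∈ N ∧ Sat N id φ ![z, w]) →
      ∃ y ∈ N, ∀ w, w ∈ y ↔ w ∈ N ∧ ∃ z ∈ x, Sat N id φ ![z, w]

/-- `H(lam⁺)[A]` for `H(lam⁺)` of the model `M`: the sets that are in every transitive model of ZF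
without the power set axiom which includes `H(lam⁺)` and contains `A`. -/
def HA (M : Set ZFSet.{0}) (lam A : ZFSet.{0}) : Set ZFSet.{0} :=
  {x | ∀ N : Set ZFSet.{0}, IsZFm N → Hp M lam ⊆ N → A ∈ N → x ∈ N}

/-- `W = V[A]`: the least transitive model of ZFC that includes `V` and contains `A`. -/
def IsExt (V : Set ZFSet.{0}) (A : ZFSet.{0}) (W : Set ZFSet.{0}) : Prop :=
  IsZFC W ∧ V ⊆ W ∧ A ∈ W ∧ ∀ N : Set ZFSet.{0}, IsZFC N → V ⊆ N → A ∈ N → W ⊆ N

/-- `U` is a normal measure on the uncountable cardinal `κ`: a nonprincipal `κ`-complete ultrafilter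
on the well-ordered set of type `κ` which is closed under diagonal intersections. -/
structure IsNormalMeasure (κ : Cardinal.{0}) (U : Ultrafilter κ.ord.ToType) : Prop where
  uncountable : Cardinal.aleph0 < κ
  nonprincipal : ∀ a : κ.ord.ToType, {a} ∉ U
  complete : ∀ (ι : Type) (A : ι → Set κ.ord.ToType), Cardinal.mk ι < κ → (∀ i, A i ∈ U) → (⋂ i, A i) ∈ U
  normal : ∀ A : κ.ord.ToType → Set κ.ord.ToType, (∀ a, A a ∈ U) → {x | ∀ a < x, x ∈ A a} ∈ U

end Pool.Agent.helper797_mt
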