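import Pool.Agent.helper797_mt.PC1

/-!
# GCH in the ground model
-/

set_option autoImplicit false
set_option linter.unreachableTactic false
set_option linter.unusedTactic false
set_option linter.unusedSectionVars false

namespace Pool.Agent.helper797_mt

open Pool.Agent.W868 Pool.Agent.W868.PName Pool.Agent.TH770
open Pool.Agent.V11248.Pk (PC Normal)
open Pool.Agent.Helper669.Forcing (Down)
open ZFSet (pair)
open Cardinal

variable {P : Type} [Preorder P] [OrderTop P] (π : Pkg P)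

/-- The power set of a set of the ground model. -/
theorem PC2.pow_eq {m p : ZFSet.{0}} (hm : m ∈ π.Z) (hp : p ∈ π.Z)
    (h : ∀ z, z ∈ π.hat p ↔ z ∈ π.V ∧ z ⊆ π.hat m) : p = ZFSet.powerset m := by
  refine (π.hat_inj hp (π.pow_Z hm)).1 ?_
  ext z
  rw [h z, π.mem_hat]
  constructor
  · rintro ⟨⟨y, hy, rfl⟩, h2⟩
    exact ⟨y, ZFSet.mem_powerset.2 (π.subset_of_hat hm hy h2), hy, rfl⟩
  · rintro ⟨y, hy, hyZ, rfl⟩
    exact ⟨π.of_hat_mem_V hyZ, π.hat_subset (ZFSet.mem_powerset.1 hy)⟩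

theorem PC2.card_le_of_inj {x y f : ZFSet.{0}} (h : IsInj x y f) : x.card ≤ y.card := by
  rw [← Cardinal.lift_le.{1}, ← ZFSet.cardinalMk_coe_sort, ← ZFSet.cardinalMk_coe_sort]
  choose! g hg using fun z (hz : z ∈ x) => (h.1.2 z hz).exists
  refine Cardinal.mk_le_of_injective (f := fun z : {z // z ∈ x} =>
    (⟨g z.1, (ZFSet.pair_mem_prod.1 (h.1.1 (hg z.1 z.2))).2⟩ : {z // z ∈ y})) ?_
  rintro ⟨a, ha⟩ ⟨b, hb⟩ hab
  have h1 : g a = g b := congrArg Subtype.val hab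
  refine Subtype.ext (h.2 a b (g a) (hg a ha) ?_)
  rw [h1]
  exact hg b hb

theorem gch_V (hG : ∀ c : Cardinal.{0}, ℵ₀ ≤ c → 2 ^ c = Order.succ c) : GCH π.V := by
  intro μ κ Q hμ hκ hQ hQz
  obtain ⟨m, hm, rfl⟩ := hμ.1.1
  obtain ⟨k, hk, rfl⟩ := hκ.1.1
  obtain ⟨p, hp, rfl⟩ := hQ
  obtain ⟨hmo, hmc⟩ := (isCard_V π hm).1 hμ.1
  obtain ⟨hko, hkc⟩ := (isCard_V π hk).1 hκ.1
  -- `m` is infinite
  have h1 : ℵ₀ ≤ m.card := by
    have h2 : ZFSet.omega ⊆ m := by
      refine π.subset_of_hat hm π.omega_Z ?_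
      rw [π.hat_omega]
      exact hμ.2
    rw [← card_omega]
    exact ZFSet.card_mono h2
  have h2 : m ∈ k := (π.hat_mem_hat hm hk).1 hκ.2.1
  -- the size of `k`
  have h3 : k.card = Order.succ m.card := by
    refine le_antisymm ?_ (Order.succ_le_of_lt (hkc m h2))
    by_contra h4
    push Not at h4
    obtain ⟨κ', rfl⟩ := ZFSet.isOrdinal_iff_mem_range_toZFSet.1 hko
    obtain ⟨μ', rfl⟩ := ZFSet.isOrdinal_iff_mem_range_toZFSet.1 hmo
    have hB := isBase_univ
    have hd : Dfn π.Z Set.univ fun w : Fin 1 → ZFSet.{0} => w 0 ∈ κ'.toZFSet ∧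
        μ'.toZFSet ∈ w 0 ∧ ∀ b ∈ w 0, ¬ ∃ f ∈ Set.univ, IsInj (w 0) b f := by
      (repeat' first
        | assumption
        | exact DfnF.proj _
        | exact DfnF.const' (by first | assumption | trivial) (by first | assumption | trivial)
        | apply hB.isInj'
        | apply Dfn.not | apply Dfn.and
        | apply hB.ball | apply Dfn.ex
        | apply Dfn.mem)
    obtain ⟨ν, hν, h5, h6, h7⟩ := π.exists_Z (Q := fun w => w ∈ κ'.toZFSet ∧
        μ'.toZFSet ∈ w ∧ ∀ b ∈ w, ¬ ∃ f ∈ Set.univ, IsInj w b f) hd (by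
      rw [Ordinal.card_toZFSet, Ordinal.card_toZFSet] at h4
      refine ⟨(Order.succ μ'.card).ord.toZFSet, ?_, ?_, ?_⟩
      · rw [Ordinal.toZFSet_mem_toZFSet_iff]
        by_contra h5
        have h6 := Ordinal.card_le_card (not_lt.1 h5)
        rw [Cardinal.card_ord] at h6
        exact absurd h4 (not_lt.2 h6)
      · rw [Ordinal.toZFSet_mem_toZFSet_iff, Cardinal.lt_ord]
        exact Order.lt_succ _
      · rintro b hb ⟨f, -, hf⟩
        obtain ⟨β, hβ, rfl⟩ := Ordinal.mem_toZFSet_iff.1 hb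
        have h5 := PC2.card_le_of_inj hf
        rw [Ordinal.card_toZFSet, Ordinal.card_toZFSet, Cardinal.card_ord] at h5
        exact absurd (Cardinal.lt_ord.1 hβ) (not_lt.2 h5))
    have h8 : ν.IsOrdinal := hko.mem h5
    have h9 : IsCard π.V (π.hat ν) := (isCard_V π hν).2 ⟨h8, fun b hb => by
      by_contra h10
      obtain ⟨f, hf⟩ := exists_isInj (not_lt.1 h10)
      exact h7 b hb ⟨f, trivial, hf⟩⟩
    rcases hκ.2.2 _ ((π.hat_mem_hat hν hk).2 h5) h9 with h10 | h10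
    · exact ZFSet.mem_asymm ((π.hat_mem_hat hν hm).1 h10) h6
    · rw [(π.hat_inj hν hm).1 h10] at h6
      exact ZFSet.mem_irrefl _ h6
  have h4 : p = ZFSet.powerset m := PC2.pow_eq π hm hp hQz
  refine π.exists_bij_V hp hk (exists_isBij ?_)
  rw [h4, ZFSet.card_powerset, hG _ h1, h3]

end Pool.Agent.helper797_mt
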