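import Pool.Agent.helper797_mt.PC1

/-!
# The singular cardinal
-/

set_option autoImplicit false
set_option linter.unreachableTactic false
set_option linter.unusedTactic false
set_option linter.unusedSectionVars false

namespace Pool.Agent.helper797_mt

open Pool.Agent.W868 Pool.Agent.W868.PName Pool.Agent.TH770
open Pool.Agent.V11248.Pk (PC Normal)
open Pool.Agent.Helper669.Forcing (Down)
open ZFSet (pair)
open Cardinal

namespace PC3

/-- There is a cofinal function in the universe. -/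
theorem exists_cof {κ lam : Cardinal.{0}} (h0 : ℵ₀ ≤ lam) (hcof : lam.ord.cof = κ) :
    ∃ f, ZFSet.IsFunc (cz κ) (cz lam) f ∧
      ∀ β ∈ cz lam, ∃ x ∈ cz κ, ∃ γ ∈ cz lam, pair x γ ∈ f ∧ β ∈ γ := by
  obtain ⟨S, hS, hS'⟩ := Order.exists_cof_eq lam.ord.ToType
  rw [Ordinal.cof_toType, hcof] at hS'
  have hk : #κ.ord.ToType = #S := by
    rw [hS']
    simp
  obtain ⟨e⟩ := Cardinal.eq.1 hk
  let a : κ.ord.ToType → Ordinal.{0} := fun i => Ordinal.typein (α := κ.ord.ToType) (· < ·) i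
  let b : lam.ord.ToType → Ordinal.{0} := fun i => Ordinal.typein (α := lam.ord.ToType) (· < ·) i
  have ha : ∀ i, a i < κ.ord := fun i => Ordinal.typein_lt_self i
  have hb : ∀ i, b i < lam.ord := fun i => Ordinal.typein_lt_self i
  have haI : Function.Injective a := Ordinal.typein_injective (α := κ.ord.ToType) (· < ·)
  have haS : ∀ o < κ.ord, ∃ i, a i = o := by
    intro o ho
    have h1 : o < Ordinal.type (α := κ.ord.ToType) (· < ·) := by
      rwa [Ordinal.type_toType]
    exact ⟨Ordinal.enum (α := κ.ord.ToType) (· < ·) ⟨o, h1⟩, Ordinal.typein_enum _ h1⟩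
  have hbS : ∀ o < lam.ord, ∃ i, b i = o := by
    intro o ho
    have h1 : o < Ordinal.type (α := lam.ord.ToType) (· < ·) := by
      rwa [Ordinal.type_toType]
    exact ⟨Ordinal.enum (α := lam.ord.ToType) (· < ·) ⟨o, h1⟩, Ordinal.typein_enum _ h1⟩
  have hbm : ∀ i j, i ≤ j → b i ≤ b j := by
    intro i j hij
    by_contra h
    have h1 : b j < b i := not_le.1 h
    have h2 : j < i := (Ordinal.typein_lt_typein (α := lam.ord.ToType) (· < ·)).1 h1
    exact absurd hij (not_le.2 h2)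
  let f : ZFSet.{0} := ZFSet.range fun i : κ.ord.ToType => pair (a i).toZFSet (b (e i).1).toZFSet
  have hf : ∀ i, pair (a i).toZFSet (b (e i).1).toZFSet ∈ f := fun i => ZFSet.mem_range.2 ⟨i, rfl⟩
  refine ⟨f, ⟨?_, ?_⟩, ?_⟩
  · intro p hp
    obtain ⟨i, rfl⟩ := ZFSet.mem_range.1 hp
    exact ZFSet.pair_mem_prod.2 ⟨Ordinal.toZFSet_mem_toZFSet_iff.2 (ha i),
      Ordinal.toZFSet_mem_toZFSet_iff.2 (hb _)⟩
  · intro z hz
    obtain ⟨o, ho, rfl⟩ := Ordinal.mem_toZFSet_iff.1 hz
    obtain ⟨i, rfl⟩ := haS o ho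
    refine ⟨(b (e i).1).toZFSet, hf i, fun w hw => ?_⟩
    obtain ⟨j, hj⟩ := ZFSet.mem_range.1 hw
    obtain ⟨h1, h2⟩ := ZFSet.pair_inj.1 hj
    obtain rfl := haI (Ordinal.toZFSet_injective h1)
    exact h2.symm
  · intro β hβ
    obtain ⟨o, ho, rfl⟩ := Ordinal.mem_toZFSet_iff.1 hβ
    have hlim : Order.IsSuccLimit lam.ord := Cardinal.isSuccLimit_ord h0
    have ho' : Order.succ o < lam.ord := hlim.succ_lt ho
    obtain ⟨i, hi⟩ := hbS _ ho'
    obtain ⟨j, hj, hij⟩ := hS i
    obtain ⟨k, hk'⟩ := e.surjective ⟨j, hj⟩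
    refine ⟨(a k).toZFSet, Ordinal.toZFSet_mem_toZFSet_iff.2 (ha k), (b (e k).1).toZFSet,
      Ordinal.toZFSet_mem_toZFSet_iff.2 (hb _), hf k, Ordinal.toZFSet_mem_toZFSet_iff.2 ?_⟩
    rw [hk']
    have h1 : Order.succ o ≤ b j := hi ▸ hbm i j hij
    exact lt_of_lt_of_le (Order.lt_succ o) h1

/-- A partial function from the natural numbers is bounded. -/
theorem bounded {lam : Cardinal.{0}} (h0 : ℵ₀ < lam.ord.cof) {f : ZFSet.{0}}
    (hf : ∀ n ∈ (ZFSet.omega : ZFSet.{0}), ∀ x ∈ cz lam, ∀ y ∈ cz lam,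
      pair n x ∈ f → pair n y ∈ f → x = y)
    (h : ∀ β ∈ cz lam, ∃ n ∈ (ZFSet.omega : ZFSet.{0}), ∃ γ ∈ cz lam, pair n γ ∈ f ∧ β ∈ γ) :
    False := by
  classical
  have hpos : 0 < lam.ord := by
    rw [← Ordinal.cof_pos]
    exact Cardinal.aleph0_pos.trans h0
  -- the value at `n`
  let o : ℕ → Ordinal.{0} := fun n =>
    if hn : ∃ a < lam.ord, pair (nat n) a.toZFSet ∈ f then hn.choose else 0
  have ho : ∀ n, o n < lam.ord := by
    intro n
    by_cases hn : ∃ a < lam.ord, pair (nat n) a.toZFSet ∈ f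
    · simp only [o, dif_pos hn]
      exact hn.choose_spec.1
    · simp only [o, dif_neg hn]
      exact hpos
  have ho' : ∀ n, ∀ a < lam.ord, pair (nat n) a.toZFSet ∈ f → o n = a := by
    intro n a ha h1
    have hn : ∃ a < lam.ord, pair (nat n) a.toZFSet ∈ f := ⟨a, ha, h1⟩
    simp only [o, dif_pos hn]
    have h2 := hf (nat n) (mem_omega_iff.2 ⟨n, rfl⟩) _
      (Ordinal.toZFSet_mem_toZFSet_iff.2 hn.choose_spec.1) _
      (Ordinal.toZFSet_mem_toZFSet_iff.2 ha) hn.choose_spec.2 h1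
    exact Ordinal.toZFSet_injective h2
  have hs : ⨆ n, o n < lam.ord := by
    refine Ordinal.iSup_lt_of_lt_cof ?_ ho
    simpa using h0
  obtain ⟨n, hn, γ, hγ, h1, h2⟩ := h _ (Ordinal.toZFSet_mem_toZFSet_iff.2 hs)
  obtain ⟨k, rfl⟩ := mem_omega_iff.1 hn
  obtain ⟨c, hc, rfl⟩ := Ordinal.mem_toZFSet_iff.1 hγ
  have h3 := Ordinal.toZFSet_mem_toZFSet_iff.1 h2
  rw [← ho' k c hc h1] at h3
  exact absurd (le_ciSup (f := o) (Ordinal.bddAbove_of_small) k) (not_le.2 h3)

end PC3

variable {P : Type} [Preorder P] [OrderTop P] (π : Pkg P)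

theorem PC3.hat_isFunc {x y f : ZFSet.{0}} (hx : x ∈ π.Z) (hy : y ∈ π.Z) (hf : f ∈ π.Z)
    (h : ZFSet.IsFunc x y f) : ZFSet.IsFunc (π.hat x) (π.hat y) (π.hat f) := by
  have hB := isBase_univ
  refine ⟨?_, ?_⟩
  · rw [← π.hat_prod hx hy]
    exact π.hat_subset h.1
  · intro a' ha'
    obtain ⟨a, ha, haZ, rfl⟩ := π.mem_hat.1 ha'
    have hd : Dfn π.Z Set.univ fun w : Fin 1 → ZFSet.{0} => pair a (w 0) ∈ f := by
      (repeat' first
      | assumption
      | exact DfnF.proj _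
      | exact DfnF.const (by assumption)
      | exact DfnF.const' (by first | assumption | trivial) (by first | assumption | trivial)
      | exact Dfn.prop _
      | apply Dfn.not | apply Dfn.and | apply Dfn.or | apply Dfn.imp | apply Dfn.iff
      | apply hB.bex | apply hB.ball | apply Dfn.ex | apply Dfn.all
      | apply Dfn.eq | apply Dfn.mem | apply hB.pair')
    obtain ⟨b', hb', huniq⟩ := h.2 a ha
    obtain ⟨b, hb, h1⟩ := π.exists_Z (Q := fun b => pair a b ∈ f) hd ⟨b', hb'⟩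
    refine ⟨π.hat b, (π.pair_mem_hat haZ hb hf).2 h1, fun c hc => ?_⟩
    obtain ⟨a2, ha2, c2, hc2, h2, rfl, h3⟩ := π.of_pair_mem_hat hf hc
    obtain rfl := (π.hat_inj haZ ha2).1 h2
    rw [huniq c2 h3, huniq b h1]

theorem singUnc_V {κ lam : Cardinal.{0}} (hκ : κ.IsRegular) (h0 : ℵ₀ < κ) (hlt : κ < lam)
    (hcof : lam.ord.cof = κ) (h1 : cz κ ∈ π.Z) (h2 : cz lam ∈ π.Z) :
    SingUnc π.V (π.hat (cz lam)) := by
  have hB := isBase_univ
  have hl : ℵ₀ ≤ lam := (h0.trans hlt).le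
  have hmem : cz κ ∈ cz lam := Ordinal.toZFSet_mem_toZFSet_iff.2 (Cardinal.ord_lt_ord.2 hlt)
  refine ⟨isInfCard_V π hl h2, ⟨π.hat (cz κ), (π.hat_mem_hat h1 h2).2 hmem, ?_⟩, ?_⟩
  · -- a cofinal function of the ground model
    have hd : Dfn π.Z Set.univ fun w : Fin 1 → ZFSet.{0} =>
        ZFSet.IsFunc (cz κ) (cz lam) (w 0) ∧
          ∀ β ∈ cz lam, ∃ x ∈ cz κ, ∃ γ ∈ cz lam, pair x γ ∈ w 0 ∧ β ∈ γ := by
      refine Dfn.and ?_ ?_
      · exact hB.isFunc' (DfnF.const' trivial h1) (DfnF.const' trivial h2) (DfnF.proj _)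
      · (repeat' first
        | assumption
        | exact DfnF.proj _
        | exact DfnF.const (by assumption)
        | exact DfnF.const' (by first | assumption | trivial) (by first | assumption | trivial)
        | exact Dfn.prop _
        | apply Dfn.not | apply Dfn.and | apply Dfn.or | apply Dfn.imp | apply Dfn.iff
        | apply hB.bex | apply hB.ball | apply Dfn.ex | apply Dfn.all
        | apply Dfn.eq | apply Dfn.mem | apply hB.pair')
    obtain ⟨f, hf, hf1, hf2⟩ := π.exists_Z (Q := fun f => ZFSet.IsFunc (cz κ) (cz lam) f ∧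
      ∀ β ∈ cz lam, ∃ x ∈ cz κ, ∃ γ ∈ cz lam, pair x γ ∈ f ∧ β ∈ γ) hd (PC3.exists_cof hl hcof)
    refine ⟨π.hat f, π.of_hat_mem_V hf, PC3.hat_isFunc π h1 h2 hf hf1, ?_⟩
    intro β' hβ'
    obtain ⟨β, hβ, hβZ, rfl⟩ := π.mem_hat.1 hβ'
    have hd1 : Dfn π.Z Set.univ fun w : Fin 1 → ZFSet.{0} => w 0 ∈ cz κ ∧
        ∃ γ ∈ cz lam, pair (w 0) γ ∈ f ∧ β ∈ γ := by
      (repeat' first
        | assumption
        | exact DfnF.proj _
        | exact DfnF.const (by assumption)
        | exact DfnF.const' (by first | assumption | trivial) (by first | assumption | trivial)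
        | exact Dfn.prop _
        | apply Dfn.not | apply Dfn.and | apply Dfn.or | apply Dfn.imp | apply Dfn.iff
        | apply hB.bex | apply hB.ball | apply Dfn.ex | apply Dfn.all
        | apply Dfn.eq | apply Dfn.mem | apply hB.pair')
    obtain ⟨x, hx, hx1, hx2⟩ := π.exists_Z (Q := fun x => x ∈ cz κ ∧
      ∃ γ ∈ cz lam, pair x γ ∈ f ∧ β ∈ γ) hd1 (hf2 β hβ)
    have hd2 : Dfn π.Z Set.univ fun w : Fin 1 → ZFSet.{0} => w 0 ∈ cz lam ∧
        pair x (w 0) ∈ f ∧ β ∈ w 0 := by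
      (repeat' first
        | assumption
        | exact DfnF.proj _
        | exact DfnF.const (by assumption)
        | exact DfnF.const' (by first | assumption | trivial) (by first | assumption | trivial)
        | exact Dfn.prop _
        | apply Dfn.not | apply Dfn.and | apply Dfn.or | apply Dfn.imp | apply Dfn.iff
        | apply hB.bex | apply hB.ball | apply Dfn.ex | apply Dfn.all
        | apply Dfn.eq | apply Dfn.mem | apply hB.pair')
    obtain ⟨γ, hγ, hγ1, hγ2, hγ3⟩ := π.exists_Z (Q := fun γ => γ ∈ cz lam ∧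
      pair x γ ∈ f ∧ β ∈ γ) hd2 hx2
    exact ⟨π.hat x, (π.hat_mem_hat hx h1).2 hx1, π.hat γ, (π.hat_mem_hat hγ h2).2 hγ1,
      (π.pair_mem_hat hx hγ hf).2 hγ2, (π.hat_mem_hat hβZ hγ).2 hγ3⟩
  · -- no cofinal function from omega
    rintro ⟨f', ⟨f, hf, rfl⟩, hf1, hf2⟩
    have hω := π.omega_Z
    have hdom : ∀ n ∈ (ZFSet.omega : ZFSet.{0}), n ∈ π.Z := by
      intro n hn
      obtain ⟨k, rfl⟩ := mem_omega_iff.1 hn
      exact π.nat_Z k
    have hhat : ∀ n ∈ (ZFSet.omega : ZFSet.{0}), π.hat n = n := by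
      intro n hn
      obtain ⟨k, rfl⟩ := mem_omega_iff.1 hn
      exact π.hat_nat k
    refine PC3.bounded (lam := lam) (f := f) (by rw [hcof]; exact h0) ?_ ?_
    · intro n hn
      have hnZ := hdom n hn
      have hda : Dfn π.Z Set.univ fun w : Fin 1 → ZFSet.{0} => w 0 ∈ cz lam → ∀ y ∈ cz lam,
          pair n (w 0) ∈ f → pair n y ∈ f → w 0 = y := by
        (repeat' first
        | assumption
        | exact DfnF.proj _
        | exact DfnF.const (by assumption)
        | exact DfnF.const' (by first | assumption | trivial) (by first | assumption | trivial)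
        | exact Dfn.prop _
        | apply Dfn.not | apply Dfn.and | apply Dfn.or | apply Dfn.imp | apply Dfn.iff
        | apply hB.bex | apply hB.ball | apply Dfn.ex | apply Dfn.all
        | apply Dfn.eq | apply Dfn.mem | apply hB.pair')
      refine π.forall_Z (Q := fun x => x ∈ cz lam → ∀ y ∈ cz lam,
          pair n x ∈ f → pair n y ∈ f → x = y) hda fun x hxZ hx => ?_
      have hdb : Dfn π.Z Set.univ fun w : Fin 1 → ZFSet.{0} => w 0 ∈ cz lam →
          pair n x ∈ f → pair n (w 0) ∈ f → x = w 0 := by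
        (repeat' first
        | assumption
        | exact DfnF.proj _
        | exact DfnF.const (by assumption)
        | exact DfnF.const' (by first | assumption | trivial) (by first | assumption | trivial)
        | exact Dfn.prop _
        | apply Dfn.not | apply Dfn.and | apply Dfn.or | apply Dfn.imp | apply Dfn.iff
        | apply hB.bex | apply hB.ball | apply Dfn.ex | apply Dfn.all
        | apply Dfn.eq | apply Dfn.mem | apply hB.pair')
      refine π.forall_Z (Q := fun y => y ∈ cz lam →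
          pair n x ∈ f → pair n y ∈ f → x = y) hdb fun y hyZ hy h3 h4 => ?_
      have h5 := (π.pair_mem_hat hnZ hxZ hf).2 h3
      have h6 := (π.pair_mem_hat hnZ hyZ hf).2 h4
      rw [hhat n hn] at h5 h6
      obtain ⟨w, hw, hu⟩ := hf1.2 n hn
      refine (π.hat_inj hxZ hyZ).1 ?_
      rw [hu _ h5, hu _ h6]
    · have hdc : Dfn π.Z Set.univ fun w : Fin 1 → ZFSet.{0} => w 0 ∈ cz lam →
          ∃ n ∈ (ZFSet.omega : ZFSet.{0}), ∃ γ ∈ cz lam, pair n γ ∈ f ∧ w 0 ∈ γ := by
        (repeat' first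
        | assumption
        | exact DfnF.proj _
        | exact DfnF.const (by assumption)
        | exact DfnF.const' (by first | assumption | trivial) (by first | assumption | trivial)
        | exact Dfn.prop _
        | apply Dfn.not | apply Dfn.and | apply Dfn.or | apply Dfn.imp | apply Dfn.iff
        | apply hB.bex | apply hB.ball | apply Dfn.ex | apply Dfn.all
        | apply Dfn.eq | apply Dfn.mem | apply hB.pair')
      refine π.forall_Z (Q := fun β => β ∈ cz lam →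
          ∃ n ∈ (ZFSet.omega : ZFSet.{0}), ∃ γ ∈ cz lam, pair n γ ∈ f ∧ β ∈ γ) hdc
        fun β hβZ hβ => ?_
      obtain ⟨n, hn, γ', hγ', h3, h4⟩ := hf2 _ ((π.hat_mem_hat hβZ h2).2 hβ)
      obtain ⟨γ, hγ, hγZ, rfl⟩ := π.mem_hat.1 hγ'
      refine ⟨n, hn, γ, hγ, ?_, (π.hat_mem_hat hβZ hγZ).1 h4⟩
      rw [← hhat n hn] at h3
      exact (π.pair_mem_hat (hdom n hn) hγZ hf).1 h3

end Pool.Agent.helper797_mt
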