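import Pool.Agent.helper797_mt.Pos

/-!
# The cardinals of the extension
-/

set_option autoImplicit false
set_option linter.unreachableTactic false
set_option linter.unusedTactic false
set_option linter.unusedSectionVars false

namespace Pool.Agent.helper797_mt

open Pool.Agent.W868 Pool.Agent.W868.PName Pool.Agent.TH770
open Pool.Agent.V11248.Pk (PC Normal)
open Pool.Agent.Helper669.Forcing (Down)
open ZFSet (pair)
open Cardinal

variable {P : Type} [Preorder P] [OrderTop P]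

namespace PD

/-- A forced injection into a smaller set contradicts `NoOnto`. -/
theorem false_of_fc (hno : NoOnto P) {x b : ZFSet.{0}} {τ : PName P} {p : P}
    (hlt : b.card < x.card)
    (hk : Fc ({τ, check x, check b} : Set (PName P))
      (fun π => IsInj (π.hat x) (π.hat b) (π.val τ)) p) : False := by
  set S : Set (PName P) := {τ, check x, check b} with hS
  have hτS : τ ∈ S := by simp [hS]
  have hxS : check x ∈ S := by simp [hS]
  have hbS : check b ∈ S := by simp [hS]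
  have hSc : S.Countable := (Set.toFinite _).countable
  refine hno (Ty b) (Ty x)
    (fun a y => {r | r ≤ p ∧ Fc (S ∪ {check (W868.el a), check (W868.el y)})
      (fun π => pair (π.hat (W868.el y)) (π.hat (W868.el a)) ∈ π.val τ) r}) p ?_ ?_ ?_ ?_
  · exact hlt
  · rintro a y r ⟨h1, h2⟩ q hq
    exact ⟨hq.trans h1, h2.mono hq⟩
  · rintro a y y' r ⟨h1, h2⟩ ⟨-, h3⟩
    obtain ⟨π', h4, h5⟩ := exists_pkg' (S ∪ {check (W868.el a), check (W868.el y),
      check (W868.el y')}) (hSc.union (Set.toFinite _).countable) r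
    have hSπ : S ⊆ π'.N := fun z hz => h4 (Or.inl hz)
    have haZ : check (W868.el a) ∈ π'.N := h4 (Or.inr (by simp))
    have hyZ : check (W868.el y) ∈ π'.N := h4 (Or.inr (by simp))
    have hyZ' : check (W868.el y') ∈ π'.N := h4 (Or.inr (by simp))
    have h6 := hk π' hSπ ⟨0, by rw [h5]; exact h1⟩
    have h7 := h2 π' (by
      rintro z (hz | rfl | rfl)
      · exact hSπ hz
      · exact haZ
      · exact hyZ) ⟨0, h5.le⟩
    have h8 := h3 π' (by
      rintro z (hz | rfl | rfl)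
      · exact hSπ hz
      · exact haZ
      · exact hyZ') ⟨0, h5.le⟩
    exact W868.el_injective ((π'.hat_inj hyZ hyZ').1 (h6.2 _ _ _ h7 h8))
  · intro y q hq
    obtain ⟨π', h4, h5⟩ := exists_pkg' (S ∪ {check (W868.el y)})
      (hSc.union (Set.toFinite _).countable) q
    have hSπ : S ⊆ π'.N := fun z hz => h4 (Or.inl hz)
    have hyZ : check (W868.el y) ∈ π'.N := h4 (Or.inr (by simp))
    have h6 := hk π' hSπ ⟨0, by rw [h5]; exact hq⟩
    obtain ⟨c, hc, -⟩ := h6.1.2 (π'.hat (W868.el y))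
      ((π'.hat_mem_hat hyZ (hSπ hxS)).2 (W868.el_mem y))
    have hcb : c ∈ π'.hat b := (ZFSet.pair_mem_prod.1 (h6.1.1 hc)).2
    obtain ⟨z, hz, hzZ, rfl⟩ := π'.mem_hat.1 hcb
    obtain ⟨a, rfl⟩ := W868.exists_el hz
    have hd : ND (S ∪ {check (W868.el a), check (W868.el y)})
        (fun π => pair (π.hat (W868.el y)) (π.hat (W868.el a)) ∈ π.val τ) :=
      NDfn.mem ((NDfnF.hat (Or.inr (by simp))).pair (NDfnF.hat (Or.inr (by simp))))
        (NDfnF.val (Or.inl hτS))
    obtain ⟨k, hk'⟩ := fc_gen hd π' (by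
      rintro z (hz | rfl | rfl)
      · exact hSπ hz
      · exact hzZ
      · exact hyZ) hc
    have h7 : π'.g k ≤ q := h5 ▸ π'.g_anti (Nat.zero_le k)
    exact ⟨π'.g k, h7, a, h7.trans hq, hk'⟩

end PD

theorem isCard_W (hno : NoOnto P) (π : Pkg P) {x : ZFSet.{0}} (h : IsCard π.V x) :
    IsCard π.W x := by
  refine ⟨π.V_subset_W h.1, h.2.1, ?_⟩
  rintro β hβ ⟨f, hf, hinj⟩
  obtain ⟨x0, hx0, rfl⟩ := h.1
  obtain ⟨b, hb, hbZ, rfl⟩ := π.mem_hat.1 hβ
  obtain ⟨τ, hτ, rfl⟩ := hf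
  have hlt : b.card < x0.card := by
    by_contra hge
    obtain ⟨f, hf, h1⟩ := π.exists_inj_V hx0 hbZ (exists_isInj (not_lt.1 hge))
    exact h.2.2 _ hβ ⟨f, hf, h1⟩
  have hd : ND ({τ, check x0, check b} : Set (PName P))
      (fun π => IsInj (π.hat x0) (π.hat b) (π.val τ)) :=
    nd_isInj (NDfnF.hat (by simp)) (NDfnF.hat (by simp)) (NDfnF.val (by simp))
  obtain ⟨k, hk⟩ := fc_gen hd π (by
    rintro z (rfl | rfl | rfl)
    · exact hτ
    · exact hx0
    · exact hbZ) hinj
  exact PD.false_of_fc hno hlt hk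

theorem isNextCard_W (hno : NoOnto P) (π : Pkg P) {x y : ZFSet.{0}} (h : IsNextCard π.V x y) :
    IsNextCard π.W x y := by
  refine ⟨isCard_W hno π h.1, h.2.1, fun ν hν hc => h.2.2 ν hν ?_⟩
  exact ⟨π.trans_V h.1.1 hν, hc.2.1, fun β hβ ⟨f, hf, hinj⟩ =>
    hc.2.2 β hβ ⟨f, π.V_subset_W hf, hinj⟩⟩

end Pool.Agent.helper797_mt
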