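import Pool.Agent.helper797_mt.Pos

/-!
# Large cardinals are preserved
-/

set_option autoImplicit false
set_option linter.unreachableTactic false
set_option linter.unusedTactic false
set_option linter.unusedSectionVars false

namespace Pool.Agent.helper797_mt

open Pool.Agent.W868 Pool.Agent.W868.PName Pool.Agent.TH770
open Pool.Agent.V11248.Pk (PC Normal)
open Pool.Agent.Helper669.Forcing (Down)
open ZFSet (pair)
open Cardinal

variable {κ : Cardinal.{0}} {K : Type} [LinearOrder K] {U : Ultrafilter K} {C : Type} [Preorder C]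

namespace PE2

theorem card_list' (hN : Normal κ U) : #(List K) ≤ κ := by
  refine (mk_list_le_max K).trans ?_
  rw [hN.card]
  exact max_le hN.unc.le le_rfl

/-- the set of the possible values is small -/
theorem card_values (hN : Normal κ U) (hC : CCC C) {Y : Type}
    (D : Y → Set (PC U Set.univ × C)) (p : PC U Set.univ × C)
    (hd : ∀ y, Down (D y)) (hf : ∀ y y' r, r ∈ D y → r ∈ D y' → y = y') :
    #{y | ∃ r ≤ p, r ∈ D y} ≤ κ := by
  classical
  choose r hr using (fun y : {y | ∃ r ≤ p, r ∈ D y} => y.2)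
  have hkey : ∀ y y' : {y | ∃ r ≤ p, r ∈ D y}, (r y).1.s = (r y').1.s →
      (∃ c, c ≤ (r y).2 ∧ c ≤ (r y').2) → y = y' := by
    rintro y y' hs ⟨c, hc1, hc2⟩
    obtain ⟨t, ht1, ht2, -⟩ := Pool.Agent.V11248.Pk.compat hs
    have h1 : (t, c) ∈ D y := hd _ _ (hr y).2 _ ⟨ht1, hc1⟩
    have h2 : (t, c) ∈ D y' := hd _ _ (hr y').2 _ ⟨ht2, hc2⟩
    exact Subtype.ext (hf _ _ _ h1 h2)
  have hfib : ∀ t : List K,
      #((fun y : {y | ∃ r ≤ p, r ∈ D y} => (r y).1.s) ⁻¹' {t}) ≤ ℵ₀ := by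
    intro t
    have hinj : Set.InjOn (fun y : {y | ∃ r ≤ p, r ∈ D y} => (r y).2)
        ((fun y : {y | ∃ r ≤ p, r ∈ D y} => (r y).1.s) ⁻¹' {t}) := by
      intro y hy y' hy' h
      have e1 : (r y).1.s = t := hy
      have e2 : (r y').1.s = t := hy'
      have e3 : (r y).2 = (r y').2 := h
      exact hkey y y' (e1.trans e2.symm) ⟨(r y).2, le_rfl, e3 ▸ le_rfl⟩
    have hcount : ((fun y : {y | ∃ r ≤ p, r ∈ D y} => (r y).2) ''
        ((fun y : {y | ∃ r ≤ p, r ∈ D y} => (r y).1.s) ⁻¹' {t})).Countable := by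
      apply hC
      rintro _ ⟨y, hy, rfl⟩ _ ⟨y', hy', rfl⟩ hne hcomp
      have e1 : (r y).1.s = t := hy
      have e2 : (r y').1.s = t := hy'
      apply hne
      rw [hkey y y' (e1.trans e2.symm) hcomp]
    have h := Set.countable_of_injective_of_countable_image hinj hcount
    exact Cardinal.mk_le_aleph0_iff.2 h.to_subtype
  have h1 := Cardinal.mk_le_mk_mul_of_mk_preimage_le _ hfib
  refine h1.trans ?_
  exact (mul_le_mul' (card_list' hN) hN.unc.le).trans (mul_eq_self hN.unc.le).le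

end PE2

theorem large_case (hN : Normal κ U) (hC : CCC C) {X Y : Type} (hXY : #X < #Y)
    (hY : κ < #Y) (D : X → Y → Set (PC U Set.univ × C)) (p : PC U Set.univ × C)
    (hd : ∀ x y, Down (D x y)) (hf : ∀ x y y' r, r ∈ D x y → r ∈ D x y' → y = y')
    (ho : ∀ y, ∀ q ≤ p, ∃ r ≤ q, ∃ x, r ∈ D x y) : False := by
  have h1 : ∀ y, ∃ x, ∃ r ≤ p, r ∈ D x y := by
    intro y
    obtain ⟨r, hr, x, hx⟩ := ho y p le_rfl
    exact ⟨x, r, hr, hx⟩
  choose g hg using h1
  have h2 : #Y ≤ #(Σ x, {y | ∃ r ≤ p, r ∈ D x y}) := by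
    refine mk_le_of_injective (f := fun y => (⟨g y, ⟨y, hg y⟩⟩ : Σ x, {y | ∃ r ≤ p, r ∈ D x y})) ?_
    intro y y' h
    have h3 := congrArg (fun z : Σ x, {y | ∃ r ≤ p, r ∈ D x y} => (z.2 : Y)) h
    exact h3
  have h3 : #(Σ x, {y | ∃ r ≤ p, r ∈ D x y}) ≤ #X * κ := by
    rw [mk_sigma]
    refine (sum_le_sum _ (fun _ => κ) fun x => ?_).trans ?_
    · exact PE2.card_values hN hC (D x) p (hd x) (hf x)
    · rw [sum_const]
      simp
  exact absurd (h2.trans h3) (not_le.2 (mul_lt_of_lt (hN.unc.le.trans hY.le) hXY hY))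

end Pool.Agent.helper797_mt
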