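import Pool.Agent.helper797_mt.PE1
import Pool.Agent.helper797_mt.PE2

/-!
# Cardinals are preserved
-/

set_option autoImplicit false
set_option linter.unreachableTactic false
set_option linter.unusedTactic false
set_option linter.unusedSectionVars false

namespace Pool.Agent.helper797_mt

open Pool.Agent.W868 Pool.Agent.W868.PName Pool.Agent.TH770
open Pool.Agent.V11248.Pk (PC Normal)
open Pool.Agent.Helper669.Forcing (Down)
open ZFSet (pair)
open Cardinal

variable {κ : Cardinal.{0}} {K : Type} [LinearOrder K] {U : Ultrafilter K}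

namespace PE3

/-- Deciding finitely many values. -/
theorem decide_finset {P : Type} [Preorder P] {X Y : Type} {D : X → Y → Set P} {p : P}
    (hd : ∀ x y, Down (D x y)) (ho : ∀ y, ∀ q ≤ p, ∃ r ≤ q, ∃ x, r ∈ D x y) (S : Finset Y) :
    ∃ r ≤ p, ∀ y ∈ S, ∃ x, r ∈ D x y := by
  classical
  induction S using Finset.induction_on with
  | empty => exact ⟨p, le_refl p, fun y hy => absurd hy (Finset.notMem_empty y)⟩
  | insert a S _ ih =>
    obtain ⟨q, hq, h1⟩ := ih
    obtain ⟨r, hr, x, hx⟩ := ho a q hq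
    refine ⟨r, le_trans hr hq, fun y hy => ?_⟩
    rcases Finset.mem_insert.1 hy with rfl | hy
    · exact ⟨x, hx⟩
    · obtain ⟨x', hx'⟩ := h1 y hy
      exact ⟨x', hd x' y q hx' r hr⟩

theorem finite_case {P : Type} [Preorder P] {X Y : Type} [Finite X] {D : X → Y → Set P} {p : P}
    (hXY : #X < #Y) (hd : ∀ x y, Down (D x y))
    (hf : ∀ x y y' r, r ∈ D x y → r ∈ D x y' → y = y')
    (ho : ∀ y, ∀ q ≤ p, ∃ r ≤ q, ∃ x, r ∈ D x y) : False := by
  classical
  have := Fintype.ofFinite X
  have h1 : ((Fintype.card X + 1 : ℕ) : Cardinal.{0}) ≤ #Y := by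
    rw [Cardinal.mk_fintype] at hXY
    rw [Nat.cast_add_one]
    exact Cardinal.add_one_le_of_lt hXY
  obtain ⟨T, hT⟩ := Cardinal.le_mk_iff_exists_set.1 h1
  have hfin : T.Finite := by
    rw [← Cardinal.lt_aleph0_iff_set_finite, hT]
    exact Cardinal.natCast_lt_aleph0
  obtain ⟨r, -, hr⟩ := decide_finset hd ho hfin.toFinset
  choose g hg using hr
  have hcard : hfin.toFinset.card = Fintype.card X + 1 := by
    have h2 : ((hfin.toFinset.card : ℕ) : Cardinal.{0}) = #T := by
      rw [← Cardinal.mk_coe_finset]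
      exact Cardinal.mk_congr (Equiv.subtypeEquivRight fun y => hfin.mem_toFinset)
    rw [hT] at h2
    exact_mod_cast h2
  have hlt : Fintype.card X < Fintype.card {y // y ∈ hfin.toFinset} := by
    rw [Fintype.card_coe, hcard]
    exact Nat.lt_succ_self _
  obtain ⟨a, b, hab, he⟩ := Fintype.exists_ne_map_eq_of_card_lt
    (fun y : {y // y ∈ hfin.toFinset} => g y.1 y.2) hlt
  refine hab (Subtype.ext ?_)
  have h3 := hg a.1 a.2
  have h4 := hg b.1 b.2
  have he' : g a.1 a.2 = g b.1 b.2 := he
  rw [he'] at h3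
  exact hf _ _ _ r h3 h4

end PE3

theorem noOnto_PP (hN : Normal κ U) (L : Type) : NoOnto (PP U L) := by
  intro X Y D p hXY hd hf ho
  rcases lt_or_ge (#X) ℵ₀ with hX | hX
  · have : Finite X := Cardinal.lt_aleph0_iff_finite.1 hX
    exact PE3.finite_case hXY hd hf ho
  · rcases lt_or_ge κ (#Y) with hY | hY
    · exact large_case hN Coh.ccc hXY hY D p hd hf ho
    · have hXκ : #X < κ := lt_of_lt_of_le hXY hY
      have h1 : Order.succ (#X) < κ := by
        refine lt_of_le_of_lt (Order.succ_le_of_lt (Cardinal.cantor (#X))) ?_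
        have h2 := hN.pow hXκ
        rwa [Cardinal.mk_set] at h2
      obtain ⟨T, hT⟩ := Cardinal.le_mk_iff_exists_set.1 (Order.succ_le_of_lt hXY)
      refine small_case hN Coh.ccc hX (Y := T) (by rw [hT]; exact Order.lt_succ _)
        (by rw [hT]; exact h1) (fun x y => D x y.1) p (fun x y => hd x y.1) ?_ ?_
      · intro x y y' r hr hr'
        exact Subtype.ext (hf x y.1 y'.1 r hr hr')
      · intro y q hq
        exact ho y.1 q hq

end Pool.Agent.helper797_mt
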