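import Pool.Agent.helper797_mt.Pos

/-!
# The coding of the generic filter
-/

set_option autoImplicit false
set_option linter.unreachableTactic false
set_option linter.unusedTactic false
set_option linter.unusedSectionVars false

namespace Pool.Agent.helper797_mt

open Pool.Agent.W868 Pool.Agent.W868.PName Pool.Agent.TH770
open Pool.Agent.V11248.Pk (PC Normal)
open Pool.Agent.Helper669.Forcing (Down)
open ZFSet (pair)
open Cardinal

variable {κ : Cardinal.{0}} {K : Type} [LinearOrder K] {U : Ultrafilter K} {L : Type}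

theorem downpP (p : PP U L) (t : (ℕ × K) ⊕ L) (h : EpP p t) (q : PP U L) (hq : q ≤ p) :
    EpP q t := by
  rcases t with ⟨n, x⟩ | l
  · exact V11248.Pk.get_of_le hq.1 h
  · exact hq.2 h

theorem downmP (p : PP U L) (t : (ℕ × K) ⊕ L) (h : EmP p t) (q : PP U L) (hq : q ≤ p) :
    EmP q t := by
  rcases t with ⟨n, x⟩ | l
  · rcases h with ⟨y, h1, h2⟩ | ⟨h1, h2⟩
    · exact Or.inl ⟨y, V11248.Pk.get_of_le hq.1 h1, h2⟩
    · obtain ⟨r, hs, hr, hA⟩ := hq.1
      rcases Nat.lt_or_ge n q.1.s.length with h3 | h3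
      · refine Or.inl ⟨q.1.s[n], List.getElem?_eq_getElem h3, ?_⟩
        intro h4
        apply h2
        apply hr
        have h5 : q.1.s[n]? = some x := by rw [List.getElem?_eq_getElem h3, h4]
        rw [hs, List.getElem?_append_right h1] at h5
        exact List.mem_of_getElem? h5
      · exact Or.inr ⟨h3, fun h4 => h2 (hA h4)⟩
  · exact hq.2 h

theorem contraP (p : PP U L) (t : (ℕ × K) ⊕ L) (h : EpP p t) (h' : EmP p t) : False := by
  rcases t with ⟨n, x⟩ | l
  · have h1 : p.1.s[n]? = some x := h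
    rcases h' with ⟨y, h2, h3⟩ | ⟨h2, h3⟩
    · rw [h1] at h2
      exact h3 (Option.some.inj h2).symm
    · rw [List.getElem?_eq_none h2] at h1
      cases h1
  · exact p.2.2 l ⟨h, h'⟩

theorem denseP (hN : Normal κ U) (p r : PP U L) :
    ∃ s ≤ r, s ≤ p ∨ (∃ t, EpP p t ∧ EmP s t) ∨ ∃ t, EmP p t ∧ EpP s t := by
  classical
  obtain ⟨r1, hr1, hlen⟩ := V11248.Pk.exists_length hN p.1.s.length r.1
  have hs0 : ((r1, r.2) : PP U L) ≤ r := ⟨hr1, le_refl r.2⟩
  by_cases hpre : p.1.s <+: r1.s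
  · obtain ⟨l, hl⟩ := hpre
    by_cases hA : ∀ y ∈ l, y ∈ p.1.A
    · by_cases hc : ∀ i, ¬ ((i, true) ∈ p.2.1 ∪ r.2.1 ∧ (i, false) ∈ p.2.1 ∪ r.2.1)
      · let q1 : PC U Set.univ := ⟨r1.s, r1.A ∩ p.1.A, Filter.inter_mem r1.mem p.1.mem,
          Set.inter_subset_left.trans r1.sub, r1.sB, r1.sorted,
          fun x hx y hy => r1.above x hx y hy.1⟩
        have h1 : q1 ≤ r1 := ⟨[], by simp [q1], by simp, Set.inter_subset_left⟩
        have h2 : q1 ≤ p.1 := ⟨l, hl.symm, hA, Set.inter_subset_right⟩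
        let q2 : Coh L := ⟨p.2.1 ∪ r.2.1, hc⟩
        have h3 : q2 ≤ r.2 := Finset.subset_union_right
        have h4 : q2 ≤ p.2 := Finset.subset_union_left
        exact ⟨(q1, q2), ⟨h1.trans hr1, h3⟩, Or.inl ⟨h2, h4⟩⟩
      · push Not at hc
        obtain ⟨i, h1, h2⟩ := hc
        rw [Finset.mem_union] at h1 h2
        refine ⟨(r1, r.2), hs0, Or.inr ?_⟩
        rcases h1 with h1 | h1
        · rcases h2 with h2 | h2
          · exact absurd ⟨h1, h2⟩ (p.2.2 i)
          · exact Or.inl ⟨Sum.inr i, h1, h2⟩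
        · rcases h2 with h2 | h2
          · exact Or.inr ⟨Sum.inr i, h2, h1⟩
          · exact absurd ⟨h1, h2⟩ (r.2.2 i)
    · push Not at hA
      obtain ⟨y, hy, hyA⟩ := hA
      obtain ⟨k, hk⟩ := List.getElem?_of_mem hy
      refine ⟨(r1, r.2), hs0, Or.inr (Or.inr ⟨Sum.inl (p.1.s.length + k, y), Or.inr
        ⟨Nat.le_add_right _ _, hyA⟩, ?_⟩)⟩
      change r1.s[p.1.s.length + k]? = some y
      rw [← hl, List.getElem?_append_right (Nat.le_add_right _ _), Nat.add_sub_cancel_left]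
      exact hk
  · have h1 : ∃ n, ∃ h : n < p.1.s.length, p.1.s[n]'h ≠ r1.s[n]'(h.trans hlen) := by
      by_contra hcon
      push Not at hcon
      apply hpre
      rw [List.prefix_iff_eq_take]
      refine List.ext_getElem ?_ ?_
      · rw [List.length_take, min_eq_left hlen.le]
      · intro n h1 h2
        rw [List.getElem_take]
        exact hcon n h1
    obtain ⟨n, hn, hne⟩ := h1
    refine ⟨(r1, r.2), hs0, Or.inr (Or.inl ⟨Sum.inl (n, p.1.s[n]), ?_, Or.inl
      ⟨r1.s[n]'(hn.trans hlen), ?_, fun h => hne h.symm⟩⟩)⟩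
    · exact List.getElem?_eq_getElem hn
    · exact List.getElem?_eq_getElem (hn.trans hlen)

/-- The coding. -/
def cod (hN : Normal κ U) (L : Type) : Cod (PP U L) ((ℕ × K) ⊕ L) :=
  ⟨EpP, EmP, downpP, downmP, contraP, denseP hN⟩

end Pool.Agent.helper797_mt
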