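import Pool.Agent.helper797_mt.Pos

/-!
# The singular cardinal and the family of functions
-/

set_option autoImplicit false
set_option linter.unreachableTactic false
set_option linter.unusedTactic false
set_option linter.unusedSectionVars false

namespace Pool.Agent.helper797_mt

open Pool.Agent.W868 Pool.Agent.W868.PName Pool.Agent.TH770
open Pool.Agent.V11248.Pk (PC Normal)
open Pool.Agent.Helper669.Forcing (Down)
open ZFSet (pair)
open Cardinal

namespace PG

theorem exists_rec {X L : Type} (r : X → X → Prop) (hr : WellFounded r) (F : X → Set X)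
    (hF : ∀ x, ∀ y ∈ F x, r y x) (hc : ∀ x, #(F x) < #L) :
    ∃ B : X → L, ∀ x, ∀ y ∈ F x, B x ≠ B y := by
  classical
  have key : ∀ (x : X) (ih : ∀ y, r y x → L), ∃ l : L, ∀ y (hy : y ∈ F x),
      l ≠ ih y (hF x y hy) := by
    intro x ih
    by_contra hcon
    push Not at hcon
    have : #L ≤ #(F x) := by
      apply Cardinal.mk_le_of_surjective (f := fun y : F x => ih y.1 (hF x y.1 y.2))
      intro l
      obtain ⟨y, hy, h⟩ := hcon l
      exact ⟨⟨y, hy⟩, h.symm⟩
    exact absurd (hc x) (not_lt.2 this)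
  choose pick hpick using key
  refine ⟨hr.fix pick, ?_⟩
  intro x y hy
  rw [hr.fix_eq]
  exact hpick x _ y hy

end PG

theorem exists_lam {κ : Cardinal.{0}} (hκ : κ.IsRegular) (h0 : ℵ₀ < κ) :
    ∃ lam : Cardinal.{0}, κ < lam ∧ lam.ord.cof = κ := by
  have hlim : Order.IsSuccLimit κ.ord := isSuccLimit_ord h0.le
  refine ⟨ℵ_ (κ.ord + κ.ord), ?_, ?_⟩
  · have h1 : κ.ord ≤ Ordinal.omega κ.ord := Ordinal.isNormal_omega.strictMono.le_apply
    have h2 : κ ≤ ℵ_ κ.ord := by
      rw [← ord_le_ord, ord_aleph]; exact h1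
    refine h2.trans_lt (aleph_lt_aleph.2 ?_)
    have h3 : 0 < κ.ord := hκ.ord_pos
    simpa using h3
  · rw [ord_aleph, Ordinal.cof_omega (Ordinal.isSuccLimit_add _ hlim),
      Ordinal.cof_add _ hκ.ord_pos.ne', hκ.cof_ord]

theorem exists_family {κ lam : Cardinal.{0}} (hκ : κ.IsRegular) (hlt : κ < lam)
    (hcof : lam.ord.cof = κ) :
    ∃ B : (Order.succ lam).ord.ToType → κ.ord.ToType → lam.ord.ToType, EvDiff B := by
  classical
  have hal : ℵ₀ ≤ lam := hκ.aleph0_le.trans hlt.le
  obtain ⟨S, hS, hSc⟩ := Order.exists_cof_eq (α := lam.ord.ToType)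
  rw [Ordinal.cof_toType, hcof] at hSc
  have hSK : #κ.ord.ToType = #S := by rw [hSc, mk_ord_toType]
  obtain ⟨g⟩ := Cardinal.eq.1 hSK
  -- injections
  have he : ∀ i : (Order.succ lam).ord.ToType, ∃ e : Set.Iio i → lam.ord.ToType,
      Function.Injective e := by
    intro i
    have h1 : #(Set.Iio i) < Order.succ lam := mk_Iio_toType_ord_lt i
    have h2 : #(Set.Iio i) ≤ #(lam.ord.ToType) := by
      rw [mk_ord_toType]; exact Order.lt_succ_iff.1 h1
    obtain ⟨f⟩ := h2
    exact ⟨f, f.injective⟩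
  choose e hinj using he
  set F : (Order.succ lam).ord.ToType × κ.ord.ToType →
      Set ((Order.succ lam).ord.ToType × κ.ord.ToType) := fun x =>
    {p | p.2 = x.2 ∧ ∃ h : p.1 < x.1, ∃ b ≤ x.2, e x.1 ⟨p.1, h⟩ < (g b : lam.ord.ToType)} ∪
      {p | p.1 = x.1 ∧ p.2 < x.2} with hF
  have hwf : WellFounded (Prod.Lex ((· < ·) : (Order.succ lam).ord.ToType → _ → Prop)
      ((· < ·) : κ.ord.ToType → _ → Prop)) :=
    WellFounded.prod_lex wellFounded_lt wellFounded_lt
  obtain ⟨B, hB⟩ := PG.exists_rec (L := lam.ord.ToType) _ hwf F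
    (by
      rintro ⟨i, a⟩ ⟨j, b⟩ hy
      rcases hy with ⟨h1, h2, -⟩ | ⟨h1, h2⟩
      · exact Prod.Lex.left _ _ h2
      · simp only at h1 h2
        subst h1
        exact Prod.Lex.right _ h2)
    (by
      rintro ⟨i, a⟩
      rw [mk_ord_toType]
      refine (mk_union_le _ _).trans_lt (add_lt_of_lt hal ?_ ?_)
      · -- bounded
        have hT : #((fun b => (g b : lam.ord.ToType)) '' Set.Iic a) < κ := by
          refine mk_image_le.trans_lt ?_
          rw [← Set.Iio_insert]
          refine (mk_insert_le).trans_lt ?_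
          exact add_lt_of_lt hκ.aleph0_le (mk_Iio_toType_ord_lt a)
            (one_lt_aleph0.trans_le hκ.aleph0_le)
        have hnc : ¬ IsCofinal ((fun b => (g b : lam.ord.ToType)) '' Set.Iic a) := by
          intro h
          have := Order.cof_le h
          rw [Ordinal.cof_toType, hcof] at this
          exact absurd hT (not_lt.2 this)
        obtain ⟨y0, hy0⟩ : ∃ y0 : lam.ord.ToType, ∀ b ≤ a, (g b : lam.ord.ToType) < y0 := by
          by_contra hcon
          push Not at hcon
          apply hnc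
          intro y
          obtain ⟨b, hb, h⟩ := hcon y
          exact ⟨_, ⟨b, hb, rfl⟩, h⟩
        refine lt_of_le_of_lt ?_ (mk_Iio_toType_ord_lt y0)
        refine mk_le_of_injective (f := fun p => (⟨e i ⟨p.1.1, p.2.2.choose⟩, ?_⟩ :
          Set.Iio y0)) ?_
        · obtain ⟨b, hb, h⟩ := p.2.2.choose_spec
          exact lt_trans h (hy0 b hb)
        · intro p q hpq
          have h1 : e i ⟨p.1.1, p.2.2.choose⟩ = e i ⟨q.1.1, q.2.2.choose⟩ :=
            congrArg Subtype.val hpq
          have h2 := hinj i h1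
          have h3 : p.1.1 = q.1.1 := congrArg Subtype.val h2
          apply Subtype.ext
          exact Prod.ext h3 (p.2.1.trans q.2.1.symm)
      · refine lt_of_le_of_lt ?_ ((mk_Iio_toType_ord_lt a).trans hlt)
        refine mk_le_of_injective (f := fun p => (⟨p.1.2, p.2.2⟩ : Set.Iio a)) ?_
        intro p q hpq
        have h1 : p.1.2 = q.1.2 := congrArg Subtype.val hpq
        apply Subtype.ext
        exact Prod.ext (p.2.1.trans q.2.1.symm) h1)
  refine ⟨fun i a => B (i, a), ?_, ?_⟩
  · intro i a b hab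
    simp only at hab
    by_contra hne
    rcases lt_or_gt_of_ne hne with h | h
    · exact hB (i, b) (i, a) (Or.inr ⟨rfl, h⟩) hab.symm
    · exact hB (i, a) (i, b) (Or.inr ⟨rfl, h⟩) hab
  · have hmain : ∀ i j : (Order.succ lam).ord.ToType, j < i →
        ∃ a, ∀ x, a ≤ x → B (i, x) ≠ B (j, x) := by
      intro i j hji
      -- a bound above e i j
      obtain ⟨y, hy⟩ : ∃ y, e i ⟨j, hji⟩ < y := by
        have : NoMaxOrder lam.ord.ToType := Cardinal.noMaxOrder hal
        exact exists_gt _
      obtain ⟨s, hs, hys⟩ := hS y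
      refine ⟨g.symm ⟨s, hs⟩, ?_⟩
      intro x hx
      apply hB
      left
      refine ⟨rfl, hji, g.symm ⟨s, hs⟩, hx, ?_⟩
      simp only [Equiv.apply_symm_apply]
      exact lt_of_lt_of_le hy hys
    intro i j hij
    rcases lt_or_gt_of_ne hij with h | h
    · obtain ⟨a, ha⟩ := hmain j i h
      exact ⟨a, fun x hx => (ha x hx).symm⟩
    · exact hmain i j h

end Pool.Agent.helper797_mt
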