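import Pool.Agent.helper797_mt.PA
import Pool.Agent.helper797_mt.PF

/-!
# The reals are different
-/

set_option autoImplicit false
set_option linter.unreachableTactic false
set_option linter.unusedTactic false
set_option linter.unusedSectionVars false

namespace Pool.Agent.helper797_mt

open Pool.Agent.W868 Pool.Agent.W868.PName Pool.Agent.TH770
open Pool.Agent.V11248.Pk (PC Normal)
open Pool.Agent.Helper669.Forcing (Down)
open ZFSet (pair)
open Cardinal

variable {κ : Cardinal.{0}} {K : Type} [LinearOrder K] {U : Ultrafilter K} {I L : Type}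
  {c : (ℕ × K) ⊕ L → ZFSet.{0}} {B : I → K → L}

namespace PH1

/-- A new point of the measure one set at which the two functions take different new values. -/
theorem pt (hN : Normal κ U) (hB : EvDiff B) {i j : I} (hij : i ≠ j) (p : PP U L) :
    ∃ x ∈ p.1.A, B i x ≠ B j x ∧ (∀ b, (B i x, b) ∉ p.2.1) ∧ ∀ b, (B j x, b) ∉ p.2.1 := by
  classical
  obtain ⟨a, ha⟩ := hB.diff i j hij
  have h1 : ({x | B i x ∈ p.2.1.image Prod.fst} ∪ {x | B j x ∈ p.2.1.image Prod.fst}).Finite := by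
    refine Set.Finite.union ?_ ?_
    · exact (Finset.finite_toSet (p.2.1.image Prod.fst)).preimage (hB.inj i).injOn
    · exact (Finset.finite_toSet (p.2.1.image Prod.fst)).preimage (hB.inj j).injOn
  obtain ⟨x, ⟨hx1, hx2⟩, hx3⟩ := Pool.Agent.V11248.Pk.nonempty_of_mem
    (Filter.inter_mem (Filter.inter_mem p.1.mem (hN.tail a)) (hN.above h1.toFinset.toList))
  have h2 : ∀ y, (B i y ∈ p.2.1.image Prod.fst ∨ B j y ∈ p.2.1.image Prod.fst) → y < x := by
    intro y hy
    refine hx3 y ?_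
    rw [Finset.mem_toList, Set.Finite.mem_toFinset]
    exact hy
  refine ⟨x, hx1, ha x (le_of_lt hx2), ?_, ?_⟩
  · intro b hb
    exact lt_irrefl _ (h2 x (Or.inl (Finset.mem_image.2 ⟨_, hb, rfl⟩)))
  · intro b hb
    exact lt_irrefl _ (h2 x (Or.inr (Finset.mem_image.2 ⟨_, hb, rfl⟩)))

/-- A condition which says that the length of the stem is in the real `i` and not in the real
`j`. -/
theorem exists_ext (hN : Normal κ U) (hB : EvDiff B) {i j : I} (hij : i ≠ j) (p : PP U L) :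
    ∃ q ≤ p, ∃ x, EpP q (Sum.inl (p.1.s.length, x)) ∧ EpP q (Sum.inr (B i x)) ∧
      EmP q (Sum.inr (B j x)) := by
  classical
  obtain ⟨x, hx, hne, h1, h2⟩ := pt hN hB hij p
  obtain ⟨q, hq, hqs, -⟩ := Pool.Agent.V11248.Pk.exists_snoc hN p.1 hx
  have h3 : (B j x, !false) ∉ (p.2.add (B i x) true (h1 _)).1 := by
    intro h
    rcases Finset.mem_insert.1 h with h | h
    · exact hne (Prod.mk.inj h).1.symm
    · exact h2 _ h
  refine ⟨(q, (p.2.add (B i x) true (h1 _)).add (B j x) false h3), ⟨hq, ?_⟩, x, ?_, ?_, ?_⟩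
  · exact fun t ht => Finset.mem_insert_of_mem (Finset.mem_insert_of_mem ht)
  · show q.s[p.1.s.length]? = some x
    rw [hqs]
    simp
  · exact Finset.mem_insert_of_mem (Finset.mem_insert_self _ _)
  · exact Finset.mem_insert_self _ _

/-- The triples in the relation of the real `j`. -/
theorem of_mem (hc : Function.Injective c) (hN : Normal κ U) (π : Pkg (PP U L)) {j : I}
    (hj : RI c B j ∈ π.Z) {n : ℕ} {α β : ZFSet.{0}}
    (hα : α ∈ π.val (AN (cod hN L) c)) (hβ : β ∈ π.val (AN (cod hN L) c))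
    (h : pair (nat n) (pair α β) ∈ π.hat (RI c B j)) :
    ∃ x, (∃ k, EpP (π.g k) (Sum.inl (n, x))) ∧ ∃ k, EpP (π.g k) (Sum.inr (B j x)) := by
  obtain ⟨a, ha, b, hb, h1, h2, h3⟩ := π.of_pair_mem_hat hj h
  obtain ⟨⟨m, x⟩, h4⟩ := ZFSet.mem_range.1 h3
  obtain ⟨h5, h6⟩ := ZFSet.pair_injective h4
  dsimp only at h5 h6
  subst h5 h6
  obtain ⟨h7, h8⟩ := π.of_pair_Z hb
  rw [π.hat_nat] at h1
  obtain rfl := nat_injective h1
  rw [π.hat_pair h7 h8] at h2
  obtain ⟨h9, h10⟩ := ZFSet.pair_injective h2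
  subst h9 h10
  exact ⟨x, (mem_AN (C := cod hN L) π hc h7).1 hα, (mem_AN (C := cod hN L) π hc h8).1 hβ⟩

end PH1

theorem rl_ne (hN : Normal κ U) (hc : Function.Injective c) (hB : EvDiff B) {π : Pkg (PP U L)}
    (h : FP (cod hN L) c π) {i j : I} (hij : i ≠ j) (hi : RI c B i ∈ π.Z) (hj : RI c B j ∈ π.Z) :
    rl (π.hat (RI c B i)) (π.val (AN (cod hN L) c)) ≠
      rl (π.hat (RI c B j)) (π.val (AN (cod hN L) c)) := by
  intro hcon
  set S : Set (PName (PP U L)) := {AN (cod hN L) c, check (RI c B i), check (RI c B j),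
    check ZFSet.omega} with hS
  have s1 : AN (cod hN L) c ∈ S := by simp [hS]
  have s2 : check (RI c B i) ∈ S := by simp [hS]
  have s3 : check (RI c B j) ∈ S := by simp [hS]
  have s4 : check ZFSet.omega ∈ S := by simp [hS]
  have hSπ : S ⊆ π.N := by
    rintro x (rfl | rfl | rfl | rfl)
    · exact h.base (by simp [baseN])
    · exact hi
    · exact hj
    · exact π.omega_Z
  have hd : NDfn S fun π (_ : Fin 0 → ZFSet.{0}) => ∀ n ∈ π.hat ZFSet.omega,
      ((∃ α ∈ π.val (AN (cod hN L) c), ∃ β ∈ π.val (AN (cod hN L) c),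
        pair n (pair α β) ∈ π.hat (RI c B i)) ↔
      (∃ α ∈ π.val (AN (cod hN L) c), ∃ β ∈ π.val (AN (cod hN L) c),
        pair n (pair α β) ∈ π.hat (RI c B j))) := by
    (repeat' first
      | assumption
      | exact NDfnF.proj _
      | exact NDfnF.val (by assumption)
      | exact NDfnF.hat (by assumption)
      | apply NDfn.not | apply NDfn.and | apply NDfn.or | apply NDfn.imp | apply NDfn.iff
      | apply NDfn.bex | apply NDfn.ball | apply NDfn.ex | apply NDfn.all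
      | apply NDfn.eq | apply NDfn.mem | apply NDfnF.pair)
  obtain ⟨k, hk⟩ := forcing_theorem hd π hSπ (by
    intro n hn
    rw [π.hat_omega] at hn
    have h1 : n ∈ rl (π.hat (RI c B i)) (π.val (AN (cod hN L) c)) ↔
        n ∈ rl (π.hat (RI c B j)) (π.val (AN (cod hN L) c)) := by rw [hcon]
    simp only [rl, ZFSet.mem_sep] at h1
    exact ⟨fun h2 => (h1.1 ⟨hn, h2⟩).2, fun h2 => (h1.2 ⟨hn, h2⟩).2⟩)
  obtain ⟨r, hr, x, h1, h2, h3⟩ := PH1.exists_ext hN hB hij (π.g k)
  generalize (π.g k).1.s.length = n at h1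
  obtain ⟨π', h4, h5⟩ := exists_pkg' (S ∪ {check (c (Sum.inl (n, x))),
    check (c (Sum.inr (B i x)))}) (Set.toFinite _).countable r
  have hSπ' : S ⊆ π'.N := Set.subset_union_left.trans h4
  have h6 := hk π' hSπ' ⟨0, by
    rw [h5]
    exact hr⟩
  have z1 : c (Sum.inl (n, x)) ∈ π'.Z := h4 (Or.inr (by simp))
  have z2 : c (Sum.inr (B i x)) ∈ π'.Z := h4 (Or.inr (by simp))
  have z3 : RI c B i ∈ π'.Z := hSπ' s2
  have z4 : RI c B j ∈ π'.Z := hSπ' s3
  have h7 := (h6 (nat n) (by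
    rw [π'.hat_omega]
    exact mem_omega_iff.2 ⟨n, rfl⟩)).1 ⟨π'.hat (c (Sum.inl (n, x))),
      (mem_AN (C := cod hN L) π' hc z1).2 ⟨0, by rw [h5]; exact h1⟩,
      π'.hat (c (Sum.inr (B i x))),
      (mem_AN (C := cod hN L) π' hc z2).2 ⟨0, by rw [h5]; exact h2⟩, by
        have h8 : pair (π'.hat (nat n)) (π'.hat (pair (c (Sum.inl (n, x)))
            (c (Sum.inr (B i x))))) ∈ π'.hat (RI c B i) :=
          (π'.pair_mem_hat (π'.nat_Z n) (π'.pair_mem_Z z1 z2) z3).2
            (ZFSet.mem_range.2 ⟨(n, x), rfl⟩)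
        rw [π'.hat_nat, π'.hat_pair z1 z2] at h8
        exact h8⟩
  obtain ⟨α, hα, β, hβ, h8⟩ := h7
  obtain ⟨x', ⟨k1, hk1⟩, ⟨k2, hk2⟩⟩ := PH1.of_mem hc hN π' z4 hα hβ h8
  have hx : x' = x := by
    have h10 := downpP _ _ h1 (π'.g k1) (by rw [← h5]; exact π'.g_anti (Nat.zero_le k1))
    have h11 : (π'.g k1).1.s[n]? = some x' := hk1
    have h12 : (π'.g k1).1.s[n]? = some x := h10
    rw [h11] at h12
    exact Option.some.inj h12
  subst hx
  have h13 := downmP _ _ h3 (π'.g k2) (by rw [← h5]; exact π'.g_anti (Nat.zero_le k2))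
  exact contraP _ _ hk2 h13

end Pool.Agent.helper797_mt
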