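import Pool.Agent.helper797_mt.Pos
import Pool.Agent.W868.Base2
import Pool.Agent.W868.Im

/-!
# The set of the reals
-/

set_option autoImplicit false
set_option linter.unreachableTactic false
set_option linter.unusedTactic false
set_option linter.unusedSectionVars false

namespace Pool.Agent.helper797_mt

open Pool.Agent.W868 Pool.Agent.W868.PName Pool.Agent.TH770
open Pool.Agent.V11248.Pk (PC Normal)
open Pool.Agent.Helper669.Forcing (Down)
open ZFSet (pair)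
open Cardinal

variable {P : Type} [Preorder P] [OrderTop P] {I : Type} [LinearOrder I] [WellFoundedLT I]
  {K L : Type} {c : (ℕ × K) ⊕ L → ZFSet.{0}} {B : I → K → L}

namespace PH2

theorem mem_RI {i : I} {y : ZFSet.{0}} :
    y ∈ RI c B i ↔ pair (el i) y ∈ RR c B (el : I → ZFSet.{0}) := by
  unfold RI RR
  rw [ZFSet.mem_range, ZFSet.mem_range]
  constructor
  · rintro ⟨t, rfl⟩
    exact ⟨(i, t), rfl⟩
  · rintro ⟨⟨j, t⟩, h⟩
    obtain ⟨h1, h2⟩ := ZFSet.pair_inj.1 h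
    have h3 : j = i := el_inj h1
    subst h3
    exact ⟨t, h2⟩

theorem RI_Z (π : Pkg P) (hR : RR c B (el : I → ZFSet.{0}) ∈ π.Z) {i : I}
    (hi : (el i : ZFSet.{0}) ∈ π.Z) : RI c B i ∈ π.Z := by
  have hB := isBase_univ
  have hd : Dfn π.Z Set.univ fun w : Fin 1 → ZFSet.{0} =>
      ∀ y ∈ Set.univ, (y ∈ w 0 ↔ pair (el i) y ∈ RR c B (el : I → ZFSet.{0})) := by
    apply Dfn.all
    apply Dfn.iff
    · exact Dfn.mem (DfnF.proj _) (DfnF.proj 1)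
    · apply Dfn.mem
      · exact hB.pair' (DfnF.const' trivial hi) (DfnF.proj _)
      · exact DfnF.const' trivial hR
  obtain ⟨S, hS, h⟩ := π.exists_Z
    (Q := fun S => ∀ y ∈ Set.univ, (y ∈ S ↔ pair (el i) y ∈ RR c B (el : I → ZFSet.{0}))) hd
    ⟨RI c B i, fun y _ => mem_RI⟩
  have h1 : S = RI c B i := by
    ext y
    rw [h y trivial, mem_RI]
  exact h1 ▸ hS

theorem mem_hat_RI (π : Pkg P) (hR : RR c B (el : I → ZFSet.{0}) ∈ π.Z) {i : I}
    (hi : (el i : ZFSet.{0}) ∈ π.Z) {z : ZFSet.{0}} :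
    z ∈ π.hat (RI c B i) ↔ pair (π.hat (el i)) z ∈ π.hat (RR c B (el : I → ZFSet.{0})) := by
  constructor
  · intro h
    obtain ⟨y, hy, hyZ, rfl⟩ := π.mem_hat.1 h
    exact (π.pair_mem_hat hi hyZ hR).2 (mem_RI.1 hy)
  · intro h
    obtain ⟨a, ha, b, hb, h1, rfl, h3⟩ := π.of_pair_mem_hat hR h
    have h4 : el i = a := (π.hat_inj hi ha).1 h1
    rw [← h4] at h3
    exact (π.hat_mem_hat hb (RI_Z π hR hi)).2 (mem_RI.2 h3)

end PH2

open PH2 in
/-- If the family is in the ground model, the reals form a set in the extension which has the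
size of the index set. -/
theorem exists_reals (π : Pkg P) {A : ZFSet.{0}} (hA : A ∈ π.W) (hI : kz I ∈ π.Z)
    (hR : RR c B (el : I → ZFSet.{0}) ∈ π.Z)
    (hne : ∀ i j, i ≠ j → RI c B i ∈ π.Z → RI c B j ∈ π.Z →
      rl (π.hat (RI c B i)) A ≠ rl (π.hat (RI c B j)) A) :
    ∃ R ∈ π.W, (∀ r ∈ R, ∃ i, RI c B i ∈ π.Z ∧ r = rl (π.hat (RI c B i)) A) ∧
      ∃ f ∈ π.W, IsInj (π.hat (kz I)) R f := by
  have hM : IsZF π.W := π.isZF_W
  have hB := hM.base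
  have hRW : π.hat (RR c B (el : I → ZFSet.{0})) ∈ π.W := π.V_subset_W (π.of_hat_mem_V hR)
  have hIW : π.hat (kz I) ∈ π.W := π.V_subset_W (π.of_hat_mem_V hI)
  set Rh : ZFSet.{0} := π.hat (RR c B (el : I → ZFSet.{0})) with hRh
  let g : ZFSet.{0} → ZFSet.{0} := fun x =>
    ZFSet.sep (fun n => ∃ α ∈ A, ∃ β ∈ A, pair x (pair n (pair α β)) ∈ Rh) ZFSet.omega
  have hg : DfnF π.W π.W fun w : Fin 1 → ZFSet.{0} => g (w 0) := by
    refine hM.sep' (n := 1) (F := fun _ => ZFSet.omega)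
      (Q := fun n v => ∃ α ∈ A, ∃ β ∈ A, pair (v 0) (pair n (pair α β)) ∈ Rh)
      (DfnF.const hM.infinity) ?_
    refine hB.bex (F := fun _ => A)
      (Q := fun α w => ∃ β ∈ A, pair (w 1) (pair (w 0) (pair α β)) ∈ Rh) (DfnF.const hA) ?_
    refine hB.bex (F := fun _ => A)
      (Q := fun β w => pair (w 2) (pair (w 1) (pair (w 0) β)) ∈ Rh) (DfnF.const hA) ?_
    refine Dfn.mem ?_ (DfnF.const hRW)
    refine hB.pair' (DfnF.proj 3) ?_
    refine hB.pair' (DfnF.proj 2) ?_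
    exact hB.pair' (DfnF.proj 1) (DfnF.proj 0)
  have hgv : ∀ i : I, (el i : ZFSet.{0}) ∈ π.Z → g (π.hat (el i)) = rl (π.hat (RI c B i)) A := by
    intro i hi
    ext n
    simp only [g, rl, ZFSet.mem_sep]
    refine and_congr_right fun _ => ?_
    simp only [mem_hat_RI π hR hi]
    exact Iff.rfl
  have hpg : DfnF π.W π.W fun w : Fin 1 → ZFSet.{0} => pair (w 0) (g (w 0)) :=
    hB.pair' (DfnF.proj 0) hg
  refine ⟨im g (π.hat (kz I)), hM.im_mem hIW hg, fun r hr => ?_,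
    im (fun x => pair x (g x)) (π.hat (kz I)), hM.im_mem hIW hpg, ⟨fun p hp => ?_, fun z hz => ?_⟩,
    fun a b d ha hb => ?_⟩
  · obtain ⟨p, hp, rfl⟩ := mem_im.1 hr
    obtain ⟨i, hi, rfl⟩ := (mem_hat_kz π).1 hp
    exact ⟨i, RI_Z π hR hi, hgv i hi⟩
  · obtain ⟨x, hx, rfl⟩ := mem_im.1 hp
    exact ZFSet.pair_mem_prod.2 ⟨hx, mem_im.2 ⟨x, hx, rfl⟩⟩
  · refine ⟨g z, mem_im.2 ⟨z, hz, rfl⟩, fun w hw => ?_⟩
    obtain ⟨x, hx, h1⟩ := mem_im.1 hw
    obtain ⟨h2, h3⟩ := ZFSet.pair_inj.1 h1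
    rw [h3, h2]
  · obtain ⟨x, hx, h1⟩ := mem_im.1 ha
    obtain ⟨h2, h3⟩ := ZFSet.pair_inj.1 h1
    obtain ⟨y, hy, h4⟩ := mem_im.1 hb
    obtain ⟨h5, h6⟩ := ZFSet.pair_inj.1 h4
    rw [h2, h5]
    obtain ⟨i, hi, rfl⟩ := (mem_hat_kz π).1 hx
    obtain ⟨j, hj, rfl⟩ := (mem_hat_kz π).1 hy
    by_contra hne'
    have hij : i ≠ j := by
      rintro rfl
      exact hne' rfl
    apply hne i j hij (RI_Z π hR hi) (RI_Z π hR hj)
    rw [← hgv i hi, ← hgv j hj, ← h3, ← h6]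

end Pool.Agent.helper797_mt
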