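import Pool.Agent.helper797_mt.Pos

/-!
# The reals are in H(lam+)[A]
-/

set_option autoImplicit false
set_option linter.unreachableTactic false
set_option linter.unusedTactic false
set_option linter.unusedSectionVars false

namespace Pool.Agent.helper797_mt

open Pool.Agent.W868 Pool.Agent.W868.PName Pool.Agent.TH770
open Pool.Agent.V11248.Pk (PC Normal)
open Pool.Agent.Helper669.Forcing (Down)
open ZFSet (pair)
open Cardinal

namespace PH3

theorem card_cz (lam : Cardinal.{0}) : (cz lam).card = lam := by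
  unfold cz
  simp

theorem nat_mem_cz {lam : Cardinal.{0}} (h0 : ℵ₀ ≤ lam) (n : ℕ) : nat n ∈ cz lam := by
  unfold cz
  rw [nat_eq, Ordinal.toZFSet_mem_toZFSet_iff]
  refine lt_of_lt_of_le (Ordinal.natCast_lt_omega0 n) ?_
  rw [← Cardinal.ord_aleph0]
  exact Cardinal.ord_le_ord.2 h0

theorem cz_trans {lam : Cardinal.{0}} {x y : ZFSet.{0}} (hx : x ∈ cz lam) (hy : y ∈ x) :
    y ∈ cz lam :=
  (ZFSet.isOrdinal_toZFSet _).isTransitive.mem_trans hy hx

/-- The members of the transitive closure of a set of triples. -/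
noncomputable def S {J : Type} (a b d : J → ZFSet.{0}) : Fin 6 × J → ZFSet.{0} := fun q =>
  ![{a q.2}, {a q.2, pair (b q.2) (d q.2)}, pair (b q.2) (d q.2), {b q.2}, {b q.2, d q.2},
    pair (a q.2) (pair (b q.2) (d q.2))] q.1

theorem exists_trans {J : Type} (a b d : J → ZFSet.{0}) {lam : Cardinal.{0}} (h0 : ℵ₀ ≤ lam)
    (ha : ∀ j, a j ∈ cz lam) (hb : ∀ j, b j ∈ cz lam) (hd : ∀ j, d j ∈ cz lam) (hJ : #J ≤ lam) :
    ∃ t : ZFSet.{0}, (∀ y ∈ t, ∀ z ∈ y, z ∈ t) ∧
      (ZFSet.range fun j => pair (a j) (pair (b j) (d j))) ∈ t ∧ t.card ≤ lam := by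
  refine ⟨insert (ZFSet.range fun j => pair (a j) (pair (b j) (d j)))
    (cz lam ∪ ZFSet.range (S a b d)), ?_, ZFSet.mem_insert _ _, ?_⟩
  · have hS : ∀ q, S a b d q ∈ insert (ZFSet.range fun j => pair (a j) (pair (b j) (d j)))
        (cz lam ∪ ZFSet.range (S a b d)) := fun q =>
      ZFSet.mem_insert_of_mem _ (ZFSet.mem_union.2 (Or.inr (ZFSet.mem_range.2 ⟨q, rfl⟩)))
    have hc : ∀ x ∈ cz lam, x ∈ insert (ZFSet.range fun j => pair (a j) (pair (b j) (d j)))
        (cz lam ∪ ZFSet.range (S a b d)) := fun x hx =>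
      ZFSet.mem_insert_of_mem _ (ZFSet.mem_union.2 (Or.inl hx))
    intro y hy z hz
    rw [ZFSet.mem_insert_iff, ZFSet.mem_union, ZFSet.mem_range] at hy
    obtain rfl | hy | ⟨⟨k, j⟩, rfl⟩ := hy
    · obtain ⟨j, rfl⟩ := ZFSet.mem_range.1 hz
      exact hS (5, j)
    · exact hc _ (cz_trans hy hz)
    · fin_cases k
      · obtain rfl := ZFSet.mem_singleton.1 hz
        exact hc _ (ha j)
      · rcases ZFSet.mem_pair.1 hz with rfl | rfl
        · exact hc _ (ha j)
        · exact hS (2, j)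
      · rcases ZFSet.mem_pair.1 hz with rfl | rfl
        · exact hS (3, j)
        · exact hS (4, j)
      · obtain rfl := ZFSet.mem_singleton.1 hz
        exact hc _ (hb j)
      · rcases ZFSet.mem_pair.1 hz with rfl | rfl
        · exact hc _ (hb j)
        · exact hc _ (hd j)
      · rcases ZFSet.mem_pair.1 hz with rfl | rfl
        · exact hS (0, j)
        · exact hS (1, j)
  · have h2 : (ZFSet.range (S a b d)).card ≤ lam := by
      have h3 := ZFSet.lift_card_range_le (f := S a b d)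
      rw [Cardinal.lift_id, Cardinal.lift_id] at h3
      refine h3.trans ?_
      rw [Cardinal.mk_prod, Cardinal.lift_id, Cardinal.lift_id, Cardinal.mk_fin]
      exact Cardinal.mul_le_of_le h0 ((Cardinal.natCast_lt_aleph0).le.trans h0) hJ
    refine ZFSet.card_insert_le.trans ?_
    refine Cardinal.add_le_of_le h0 ?_ (Cardinal.one_lt_aleph0.le.trans h0)
    exact ZFSet.card_union_le.trans (Cardinal.add_le_of_le h0 (card_cz lam).le h2)

theorem sep_memN {N : Set ZFSet.{0}} (hN : IsZFm N) {Q : ZFSet.{0} → Prop}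
    (h : Dfn N N fun w : Fin 1 → ZFSet.{0} => Q (w 0)) {x : ZFSet.{0}} (hx : x ∈ N) :
    ZFSet.sep Q x ∈ N := by
  obtain ⟨φ, h1, h2⟩ := h
  obtain ⟨y, hy, h3⟩ := hN.separation φ h1 x hx
  have h4 : y = ZFSet.sep Q x := by
    ext z
    rw [h3, ZFSet.mem_sep]
    refine and_congr_right fun hz => h2 ![z] fun i => ?_
    fin_cases i
    exact hN.trans _ hx z hz
  exact h4 ▸ hy

end PH3

variable {P : Type} [Preorder P] [OrderTop P] {I K L : Type} {c : (ℕ × K) ⊕ L → ZFSet.{0}}
  {B : I → K → L}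

theorem rl_mem_HA (π : Pkg P) {A : ZFSet.{0}} {lam : Cardinal.{0}} (h0 : ℵ₀ ≤ lam)
    (h1 : cz lam ∈ π.Z) (hc : ∀ t, c t ∈ cz lam) (hK : #K ≤ lam) {i : I}
    (hi : RI c B i ∈ π.Z) :
    rl (π.hat (RI c B i)) A ∈ HA π.V (π.hat (cz lam)) A := by
  intro N hN hH hA
  have hR : π.hat (RI c B i) ∈ N := by
    apply hH
    have hJ : #(ℕ × K) ≤ lam := by
      rw [Cardinal.mk_prod, Cardinal.lift_id, Cardinal.lift_id, Cardinal.mk_nat]
      exact Cardinal.mul_le_of_le h0 h0 hK
    obtain ⟨t0, ht1, ht2, ht3⟩ := PH3.exists_trans (J := ℕ × K) (fun t => nat t.1)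
      (fun t => c (Sum.inl t)) (fun t => c (Sum.inr (B i t.2))) h0
      (fun t => PH3.nat_mem_cz h0 _) (fun t => hc _) (fun t => hc _) hJ
    obtain ⟨f0, hf0⟩ := exists_isInj (ht3.trans (PH3.card_cz lam).ge)
    have hB := isBase_univ
    have hd : Dfn π.Z Set.univ fun w : Fin 1 → ZFSet.{0} =>
        (∀ y ∈ w 0, ∀ z ∈ y, z ∈ w 0) ∧ RI c B i ∈ w 0 ∧
          ∃ f ∈ Set.univ, IsInj (w 0) (cz lam) f := by
      (repeat' first
        | assumption
        | exact DfnF.proj _
        | exact DfnF.const (by assumption)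
        | exact DfnF.const' (by first | assumption | trivial) (by first | assumption | trivial)
        | exact Dfn.prop _
        | apply hB.isInj'
        | apply Dfn.not | apply Dfn.and | apply Dfn.or | apply Dfn.imp | apply Dfn.iff
        | apply hB.bex | apply hB.ball | apply Dfn.ex | apply Dfn.all
        | apply Dfn.eq | apply Dfn.mem | apply hB.pair')
    obtain ⟨t, ht, ht4, ht5, f', -, hf'⟩ := π.exists_Z (Q := fun t =>
        (∀ y ∈ t, ∀ z ∈ y, z ∈ t) ∧ RI c B i ∈ t ∧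
          ∃ f ∈ Set.univ, IsInj t (cz lam) f) hd ⟨t0, ht1, ht2, f0, trivial, hf0⟩
    obtain ⟨f, hf, hf1⟩ := π.exists_inj_V ht h1 ⟨f', hf'⟩
    refine ⟨π.hat t, π.of_hat_mem_V ht, ?_, (π.hat_mem_hat hi ht).2 ht5, f, hf, hf1⟩
    intro y hy z hz
    obtain ⟨y', hy', hyZ, rfl⟩ := π.mem_hat.1 hy
    obtain ⟨z', hz', hzZ, rfl⟩ := π.mem_hat.1 hz
    exact (π.hat_mem_hat hzZ ht).2 (ht4 y' hy' z' hz')
  have hB : IsBase N := ⟨hN.trans, hN.pairing, hN.union⟩
  refine PH3.sep_memN hN ?_ hN.infinity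
  (repeat' first
    | assumption
    | exact DfnF.proj _
    | exact DfnF.const (by assumption)
    | exact DfnF.const' (by first | assumption | trivial) (by first | assumption | trivial)
    | exact Dfn.prop _
    | apply Dfn.not | apply Dfn.and | apply Dfn.or | apply Dfn.imp | apply Dfn.iff
    | apply hB.bex | apply hB.ball | apply Dfn.ex | apply Dfn.all
    | apply Dfn.eq | apply Dfn.mem | apply hB.pair')

end Pool.Agent.helper797_mt
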