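import Pool.Agent.helper797_mt.PB3
import Pool.Agent.helper797_mt.PC2
import Pool.Agent.helper797_mt.PC3
import Pool.Agent.helper797_mt.PD
import Pool.Agent.helper797_mt.PE3
import Pool.Agent.helper797_mt.PF
import Pool.Agent.helper797_mt.PG
import Pool.Agent.helper797_mt.PH1
import Pool.Agent.helper797_mt.PH2
import Pool.Agent.helper797_mt.PH3

/-!
# The main theorem
-/

set_option autoImplicit false

namespace Pool.Agent.helper797_mt

open Pool.Agent.W868 Pool.Agent.W868.PName Pool.Agent.TH770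
open Pool.Agent.V11248.Pk (PC Normal)
open ZFSet (pair)
open Cardinal

theorem normal_of {κ : Cardinal.{0}} {U : Ultrafilter κ.ord.ToType} (hU : IsNormalMeasure κ U) :
    Normal κ U where
  unc := hU.uncountable
  card := mk_ord_toType κ
  small := fun a => mk_Iio_toType_ord_lt a
  complete := hU.complete
  tail := fun a => by
    have hnomax : NoMaxOrder κ.ord.ToType := Cardinal.noMaxOrder hU.uncountable.le
    obtain ⟨b, hb⟩ := exists_gt a
    have h1 : #(Set.Iic a) < κ :=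
      (mk_le_mk_of_subset fun x hx => lt_of_le_of_lt hx hb).trans_lt (mk_Iio_toType_ord_lt b)
    refine Filter.mem_of_superset (hU.complete (Set.Iic a) (fun y => {(y : κ.ord.ToType)}ᶜ) h1
      fun y => ?_) fun x hx => ?_
    · exact (Ultrafilter.compl_mem_iff_notMem).2 (hU.nonprincipal y)
    · by_contra hcon
      have h2 := Set.mem_iInter.1 hx ⟨x, Set.mem_Iic.2 (not_lt.1 hcon)⟩
      exact h2 rfl
  normal := hU.normal

/-- A cardinal with a normal measure is regular. -/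
theorem regular_of {κ : Cardinal.{0}} {U : Ultrafilter κ.ord.ToType} (hU : IsNormalMeasure κ U) :
    κ.IsRegular := by
  have hN := normal_of hU
  refine ⟨hU.uncountable.le, ?_⟩
  rw [← Ordinal.cof_toType, Order.le_cof_iff]
  intro s hs
  by_contra hlt
  obtain ⟨b, hb⟩ := hN.bdd s (not_le.1 hlt)
  obtain ⟨a, ha, hab⟩ := hs b
  exact absurd (hb a ha) (not_lt.2 hab)

theorem kz_toType (c : Cardinal.{0}) : kz c.ord.ToType = cz c := by
  rw [kz, cz, Ordinal.type_toType]

theorem main (hG : ∀ c : Cardinal.{0}, ℵ₀ ≤ c → 2 ^ c = Order.succ c) {κ : Cardinal.{0}}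
    {U : Ultrafilter κ.ord.ToType} (hU : IsNormalMeasure κ U) :
    ∃ (V W : Set ZFSet.{0}) (lam A : ZFSet.{0}), V.Countable ∧ IsZFC V ∧ GCH V ∧ SingUnc V lam ∧
      A ⊆ lam ∧ IsExt V A W ∧ (∀ x ∈ W, x.IsOrdinal → x ∈ V) ∧ (∀ c, IsCard V c → IsCard W c) ∧
      ∃ R ∈ W, (∀ r ∈ R, r ⊆ ZFSet.omega ∧ r ∈ HA V lam A) ∧
        ∃ ν f, IsNextCard W lam ν ∧ f ∈ W ∧ IsInj ν R f := by
  have hN := normal_of hU
  have hκ := regular_of hU
  obtain ⟨lam, hlt, hcof⟩ := exists_lam hκ hU.uncountable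
  obtain ⟨B, hB⟩ := exists_family hκ hlt hcof
  have h0 : ℵ₀ ≤ lam := (hU.uncountable.trans hlt).le
  -- the coding of the points
  have hcard : #((ℕ × κ.ord.ToType) ⊕ lam.ord.ToType) = #(lam.ord.ToType) := by
    simp only [mk_sum, mk_prod, lift_id, mk_ord_toType, mk_nat]
    rw [Cardinal.aleph0_mul_eq hU.uncountable.le, Cardinal.add_eq_right h0 hlt.le]
  obtain ⟨φ⟩ := Cardinal.eq.1 hcard
  set c : (ℕ × κ.ord.ToType) ⊕ lam.ord.ToType → ZFSet.{0} := fun t => el (φ t) with hcdef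
  have hc : Function.Injective c := fun a b h => φ.injective (el_inj h)
  have hcm : ∀ t, c t ∈ cz lam := fun t => by
    rw [← kz_toType]
    exact el_mem_kz _
  have hno := noOnto_PP hN lam.ord.ToType
  set C := cod hN lam.ord.ToType
  obtain ⟨π, hFP, hA, -⟩ := exists_fp C c
    {check (cz lam), check (cz κ), check (cz (Order.succ lam)),
      check (RR c B (el : (Order.succ lam).ord.ToType → ZFSet.{0}))}
    (Set.toFinite _).countable ⊤
  have z1 : cz lam ∈ π.Z := hA (by simp)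
  have z2 : cz κ ∈ π.Z := hA (by simp)
  have z3 : cz (Order.succ lam) ∈ π.Z := hA (by simp)
  have z4 : RR c B (el : (Order.succ lam).ord.ToType → ZFSet.{0}) ∈ π.Z := hA (by simp)
  have z5 : AN C c ∈ π.N := hFP.base (by simp [baseN])
  have hAW : π.val (AN C c) ∈ π.W := π.val_mem_W z5
  obtain ⟨R, hR, hR1, f, hf, hf'⟩ := exists_reals π hAW (by rw [kz_toType]; exact z3) z4
    (fun i j hij hi hj => rl_ne hN hc hB hFP hij hi hj)
  rw [kz_toType] at hf'
  refine ⟨π.V, π.W, π.hat (cz lam), π.val (AN C c), π.countable_W.mono π.V_subset_W, π.isZFC_V,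
    gch_V π hG, singUnc_V π hκ hU.uncountable hlt hcof z2 z1, ?_,
    ⟨π.isZFC_W, π.V_subset_W, hAW, fun N hN' hV hAN => W_least hFP hc hN'.toIsZF hV hAN⟩,
    fun x hx ho => π.ord_V ho hx, fun c hc => isCard_W hno π hc, R, hR, ?_, π.hat (cz (Order.succ lam)), f,
    isNextCard_W hno π (isNextCard_V π h0 z1 z3), hf, hf'⟩
  · intro z hz
    obtain ⟨t, ht, rfl, -⟩ := of_mem_AN π hz
    exact (π.hat_mem_hat ht z1).2 (hcm t)
  · intro r hr
    obtain ⟨i, hi, rfl⟩ := hR1 r hr
    refine ⟨fun n hn => (ZFSet.mem_sep.1 hn).1, rl_mem_HA π h0 z1 hcm ?_ hi⟩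
    rw [mk_ord_toType]
    exact hlt.le

end Pool.Agent.helper797_mt
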