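import Pool.Agent.helper797_mt.Pos

/-!
# The names of the generic objects
-/

set_option autoImplicit false
set_option linter.unreachableTactic false
set_option linter.unusedTactic false
set_option linter.unusedSectionVars false

namespace Pool.Agent.helper797_mt

open Pool.Agent.W868 Pool.Agent.W868.PName Pool.Agent.TH770
open Pool.Agent.V11248.Pk (PC Normal)
open Pool.Agent.Helper669.Forcing (Down)
open ZFSet (pair)
open Cardinal

variable {P T : Type} [Preorder P] [OrderTop P] {C : Cod P T} {c : T → ZFSet.{0}}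

/-- Existence of packages that are closed under the codes of names. -/
theorem exists_fp (C : Cod P T) (c : T → ZFSet.{0}) (A : Set (PName P)) (hA : A.Countable)
    (p₀ : P) : ∃ π : Pkg P, FP C c π ∧ A ⊆ π.N ∧ π.g 0 = p₀ := by
  have hR : ({rSg, rCc, rCh} : Set (Rule P)).Countable := Set.Finite.countable (Set.toFinite _)
  have hB : (baseN C c : Set (PName P)).Countable := by
    unfold baseN
    exact Set.Finite.countable (Set.toFinite _)
  obtain ⟨π, h1, h2, h3⟩ := exists_pkg ({rSg, rCc, rCh} : Set (Rule P)) hR (baseN C c ∪ A)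
    (hB.union hA) p₀
  refine ⟨π, ⟨fun x hx => h1 (Or.inl hx), ?_, ?_, ?_⟩, fun x hx => h1 (Or.inr hx), h2⟩
  · intro x hx
    have h4 := (h3 rSg (by simp) _ (query2 hx hx (π.gC 0))).1
    exact h4
  · intro x hx y hy d k hd hk
    have h4 := (h3 rCc (by simp) _ (query2 hy hx (π.gC k))).1
    have h5 : ∃ d, El (tv (Fin.elim0 : Fin 0 → PName P) (Sum.inr x))
        (tv (Fin.elim0 : Fin 0 → PName P) (Sum.inr y)) d ∧ π.g k ≤ d := ⟨d, hd, hk⟩
    unfold rCc at h4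
    simp only [dif_pos h5] at h4
    exact ⟨h5.choose, h5.choose_spec.1, h5.choose_spec.2, h4⟩
  · intro x hx y d hd hp
    have hp' : (check (pair (sg y) (cP d)) : PName P) ∈ π.N := hp
    have h4 := (h3 rCh (by simp) _ (query2 hx hp' (π.gC 0))).1
    have h5 : ∃ y', ∃ d', El (tv (Fin.elim0 : Fin 0 → PName P) (Sum.inr x)) y' d' ∧
        tv (Fin.elim0 : Fin 0 → PName P) (Sum.inr (check (pair (sg y) (cP d)))) =
          check (pair (sg y') (cP d')) := ⟨y, d, hd, rfl⟩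
    unfold rCh at h4
    simp only [dif_pos h5] at h4
    obtain ⟨d', h6, h7⟩ := h5.choose_spec
    exact ⟨h5.choose, h4, d', h6, (check_injective h7).symm⟩

theorem mem_AN (π : Pkg P) (hc : Function.Injective c) {t : T} (ht : c t ∈ π.Z) :
    π.hat (c t) ∈ π.val (AN C c) ↔ ∃ k, C.Ep (π.g k) t := by
  rw [π.mem_val]
  constructor
  · rintro ⟨y, hy, d, ⟨i, h1, h2⟩, ⟨n, hn⟩, he⟩
    have h3 : y = check (c i.1.2) := h1.symm
    have h4 : d = i.1.1 := h2.symm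
    subst h3
    subst h4
    have h5 : c i.1.2 = c t := (π.hat_inj hy ht).1 he
    have h6 : C.Ep (i.1.1) t := by
      rw [← hc h5]
      exact i.2
    exact ⟨n, C.downp _ _ h6 _ hn⟩
  · rintro ⟨k, hk⟩
    exact ⟨check (c t), ht, π.g k, ⟨⟨(π.g k, t), hk⟩, rfl, rfl⟩, ⟨k, le_rfl⟩, rfl⟩

theorem of_mem_AN (π : Pkg P) {z : ZFSet.{0}} (hz : z ∈ π.val (AN C c)) :
    ∃ t, c t ∈ π.Z ∧ π.hat (c t) = z ∧ ∃ k, C.Ep (π.g k) t := by
  obtain ⟨y, hy, d, ⟨i, h1, h2⟩, ⟨n, hn⟩, he⟩ := π.mem_val.1 hz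
  have h3 : y = check (c i.1.2) := h1.symm
  have h4 : d = i.1.1 := h2.symm
  subst h3
  subst h4
  exact ⟨i.1.2, hy, he, n, C.downp _ _ i.2 _ hn⟩

theorem mem_GN (π : Pkg P) {p : P} (hp : cP p ∈ π.Z) :
    π.hat (cP p) ∈ π.val (GN P) ↔ ∃ k, π.g k ≤ p := by
  rw [π.mem_val]
  constructor
  · rintro ⟨y, hy, d, ⟨i, h1, h2⟩, ⟨n, hn⟩, he⟩
    have h4 : (GN P).cnd i = d := h2
    have h3 : check (cP ((GN P).cnd i)) = y := h1
    rw [h4] at h3
    subst h3
    have h5 : cP d = cP p := (π.hat_inj hy hp).1 he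
    rw [cP_inj h5] at hn
    exact ⟨n, hn⟩
  · rintro ⟨k, hk⟩
    exact ⟨check (cP p), hp, p, ⟨(show (GN P).idx from p), rfl, rfl⟩, ⟨k, hk⟩, rfl⟩

theorem of_mem_GN (π : Pkg P) {z : ZFSet.{0}} (hz : z ∈ π.val (GN P)) :
    ∃ p, cP p ∈ π.Z ∧ π.hat (cP p) = z ∧ ∃ k, π.g k ≤ p := by
  obtain ⟨y, hy, d, ⟨i, h1, h2⟩, ⟨n, hn⟩, he⟩ := π.mem_val.1 hz
  have h4 : (GN P).cnd i = d := h2
  have h3 : check (cP ((GN P).cnd i)) = y := h1
  rw [h4] at h3
  subst h3
  exact ⟨d, hy, he, n, hn⟩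

end Pool.Agent.helper797_mt
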