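import Pool.Agent.helper797_mt.PA

/-!
# The generic filter is determined by the generic set
-/

set_option autoImplicit false
set_option linter.unreachableTactic false
set_option linter.unusedTactic false
set_option linter.unusedSectionVars false

namespace Pool.Agent.helper797_mt

open Pool.Agent.W868 Pool.Agent.W868.PName Pool.Agent.TH770
open Pool.Agent.V11248.Pk (PC Normal)
open Pool.Agent.Helper669.Forcing (Down)
open ZFSet (pair)
open Cardinal

variable {P T : Type} [Preorder P] [OrderTop P] {C : Cod P T} {c : T → ZFSet.{0}}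

namespace PB1

theorem mem_ZT {z : ZFSet.{0}} : z ∈ ZT c ↔ ∃ t, c t = z := by
  rw [ZT, ZFSet.mem_range]

theorem pair_mem_ZEp (hc : Function.Injective c) {p : P} {t : T} :
    pair (cP p) (c t) ∈ ZEp C c ↔ C.Ep p t := by
  rw [ZEp, ZFSet.mem_range]
  constructor
  · rintro ⟨⟨⟨q, s⟩, hi⟩, h⟩
    obtain ⟨h1, h2⟩ := ZFSet.pair_inj.1 h
    have h3 : q = p := cP_inj h1
    have h4 : s = t := hc h2
    subst h3
    subst h4
    exact hi
  · intro h
    exact ⟨⟨⟨p, t⟩, h⟩, rfl⟩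

theorem pair_mem_ZEm (hc : Function.Injective c) {p : P} {t : T} :
    pair (cP p) (c t) ∈ ZEm C c ↔ C.Em p t := by
  rw [ZEm, ZFSet.mem_range]
  constructor
  · rintro ⟨⟨⟨q, s⟩, hi⟩, h⟩
    obtain ⟨h1, h2⟩ := ZFSet.pair_inj.1 h
    have h3 : q = p := cP_inj h1
    have h4 : s = t := hc h2
    subst h3
    subst h4
    exact hi
  · intro h
    exact ⟨⟨⟨p, t⟩, h⟩, rfl⟩

/-- The condition is in the generic filter or the generic set refutes it. -/
def RB (C : Cod P T) (c : T → ZFSet.{0}) (p : P) (π : Pkg P) : Prop :=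
  π.hat (cP p) ∈ π.val (GN P) ∨ ∃ t ∈ π.hat (ZT c),
    (pair (π.hat (cP p)) t ∈ π.hat (ZEp C c) ∧ ¬ t ∈ π.val (AN C c)) ∨
    (pair (π.hat (cP p)) t ∈ π.hat (ZEm C c) ∧ t ∈ π.val (AN C c))

/-- The parameters. -/
def SB (C : Cod P T) (c : T → ZFSet.{0}) (p : P) : Set (PName P) :=
  {AN C c, GN P, check (cP p), check (ZT c), check (ZEp C c), check (ZEm C c)}

theorem nd_RB (p : P) : ND (SB C c p) (RB C c p) := by
  have h1 : AN C c ∈ SB C c p := by simp [SB]
  have h2 : GN P ∈ SB C c p := by simp [SB]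
  have h3 : check (cP p) ∈ SB C c p := by simp [SB]
  have h4 : check (ZT c) ∈ SB C c p := by simp [SB]
  have h5 : check (ZEp C c) ∈ SB C c p := by simp [SB]
  have h6 : check (ZEm C c) ∈ SB C c p := by simp [SB]
  unfold ND RB
  (repeat' first
      | assumption
      | exact NDfnF.proj _
      | exact NDfnF.val (by assumption)
      | exact NDfnF.hat (by assumption)
      | apply NDfn.not | apply NDfn.and | apply NDfn.or | apply NDfn.imp | apply NDfn.iff
      | apply NDfn.bex | apply NDfn.ball | apply NDfn.ex | apply NDfn.all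
      | apply NDfn.eq | apply NDfn.mem | apply NDfnF.pair)

theorem countable_SB (p : P) : (SB C c p).Countable := by
  unfold SB
  exact (Set.toFinite _).countable

theorem fc_RB (hc : Function.Injective c) (p : P) : Fc (SB C c p) (RB C c p) ⊤ := by
  refine fc_of_dense (nd_RB p) (countable_SB p) fun q _ => ?_
  obtain ⟨s, hsq, hs⟩ := C.dense p q
  rcases hs with hs | ⟨t, h1, h2⟩ | ⟨t, h1, h2⟩
  · refine ⟨s, hsq, ∅, Set.countable_empty, fun π hS _ h0 => Or.inl ?_⟩
    have hp : cP p ∈ π.Z := hS (by simp [SB])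
    exact (mem_GN π hp).2 ⟨0, by rw [h0]; exact hs⟩
  · refine ⟨s, hsq, {check (c t)}, Set.countable_singleton _, fun π hS hA h0 => Or.inr ?_⟩
    have hp : cP p ∈ π.Z := hS (by simp [SB])
    have hT : ZT c ∈ π.Z := hS (by simp [SB])
    have hE : ZEp C c ∈ π.Z := hS (by simp [SB])
    have ht : c t ∈ π.Z := hA rfl
    refine ⟨π.hat (c t), (π.hat_mem_hat ht hT).2 (mem_ZT.2 ⟨t, rfl⟩), Or.inl ⟨?_, ?_⟩⟩
    · exact (π.pair_mem_hat hp ht hE).2 ((pair_mem_ZEp hc).2 h1)
    · intro h3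
      obtain ⟨k, hk⟩ := (mem_AN π hc ht).1 h3
      refine C.contra _ t hk (C.downm s t h2 _ ?_)
      rw [← h0]
      exact π.g_anti (Nat.zero_le k)
  · refine ⟨s, hsq, {check (c t)}, Set.countable_singleton _, fun π hS hA h0 => Or.inr ?_⟩
    have hp : cP p ∈ π.Z := hS (by simp [SB])
    have hT : ZT c ∈ π.Z := hS (by simp [SB])
    have hE : ZEm C c ∈ π.Z := hS (by simp [SB])
    have ht : c t ∈ π.Z := hA rfl
    refine ⟨π.hat (c t), (π.hat_mem_hat ht hT).2 (mem_ZT.2 ⟨t, rfl⟩), Or.inr ⟨?_, ?_⟩⟩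
    · exact (π.pair_mem_hat hp ht hE).2 ((pair_mem_ZEm hc).2 h1)
    · exact (mem_AN π hc ht).2 ⟨0, by rw [h0]; exact h2⟩

end PB1

/-- A condition is in the generic filter if and only if what it says is true. -/
theorem mem_GN_iff {π : Pkg P} (h : FP C c π) (hc : Function.Injective c) {p : P}
    (hp : cP p ∈ π.Z) : π.hat (cP p) ∈ π.val (GN P) ↔
      ∀ t, c t ∈ π.Z → (C.Ep p t → π.hat (c t) ∈ π.val (AN C c)) ∧
        (C.Em p t → π.hat (c t) ∉ π.val (AN C c)) := by
  constructor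
  · intro hG t ht
    obtain ⟨k, hk⟩ := (mem_GN π hp).1 hG
    refine ⟨fun h1 => (mem_AN π hc ht).2 ⟨k, C.downp p t h1 _ hk⟩, fun h1 h2 => ?_⟩
    obtain ⟨j, hj⟩ := (mem_AN π hc ht).1 h2
    exact C.contra (π.g (max j k)) t (C.downp _ t hj _ (π.g_le_left j k))
      (C.downm p t h1 _ ((π.g_le_right j k).trans hk))
  · intro H
    have hS : PB1.SB C c p ⊆ π.N := by
      have hb := h.base
      rintro x (rfl | rfl | rfl | rfl | rfl | rfl)
      · exact hb (by simp [baseN])
      · exact hb (by simp [baseN])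
      · exact hp
      · exact hb (by simp [baseN])
      · exact hb (by simp [baseN])
      · exact hb (by simp [baseN])
    have hT : ZT c ∈ π.Z := hS (by simp [PB1.SB])
    have hEp : ZEp C c ∈ π.Z := hS (by simp [PB1.SB])
    have hEm : ZEm C c ∈ π.Z := hS (by simp [PB1.SB])
    rcases PB1.fc_RB hc p π hS ⟨0, le_top⟩ with h1 | ⟨t', ht', h1⟩
    · exact h1
    · obtain ⟨z, hz, hzZ, rfl⟩ := π.mem_hat.1 ht'
      obtain ⟨t, rfl⟩ := PB1.mem_ZT.1 hz
      rcases h1 with ⟨h2, h3⟩ | ⟨h2, h3⟩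
      · exact absurd ((H t hzZ).1 ((PB1.pair_mem_ZEp hc).1 ((π.pair_mem_hat hp hzZ hEp).1 h2))) h3
      · exact absurd h3 ((H t hzZ).2 ((PB1.pair_mem_ZEm hc).1 ((π.pair_mem_hat hp hzZ hEm).1 h2)))

end Pool.Agent.helper797_mt
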