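import Pool.Agent.helper797_mt.PA
import Pool.Agent.W868.Rec

/-!
# The evaluation of the codes of names
-/

set_option autoImplicit false
set_option linter.unreachableTactic false
set_option linter.unusedTactic false
set_option linter.unusedSectionVars false

namespace Pool.Agent.helper797_mt

open Pool.Agent.W868 Pool.Agent.W868.PName Pool.Agent.TH770
open Pool.Agent.V11248.Pk (PC Normal)
open Pool.Agent.Helper669.Forcing (Down)
open ZFSet (pair)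
open Cardinal

variable {P T : Type} [Preorder P] [OrderTop P] {C : Cod P T} {c : T → ZFSet.{0}}

namespace PB2

/-! ### The evaluation in a transitive model -/

/-- The predecessors for the evaluation of names. -/
noncomputable def prE (G z : ZFSet.{0}) : ZFSet.{0} :=
  ZFSet.sep (fun y => ∃ p ∈ G, ZFSet.pair y p ∈ z) (ZFSet.sUnion (ZFSet.sUnion z))

theorem mem_prE {G z y : ZFSet.{0}} : y ∈ prE G z ↔ ∃ p ∈ G, ZFSet.pair y p ∈ z := by
  rw [prE, ZFSet.mem_sep]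
  constructor
  · exact fun h => h.2
  · rintro ⟨p, hp, h⟩
    refine ⟨?_, p, hp, h⟩
    rw [ZFSet.mem_sUnion]
    refine ⟨{y}, ?_, by simp⟩
    rw [ZFSet.mem_sUnion]
    exact ⟨_, h, by simp [ZFSet.pair]⟩

theorem wf_prE (G : ZFSet.{0}) : WellFounded fun u z => u ∈ prE G z :=
  Subrelation.wf (r := InvImage (· < ·) ZFSet.rank) (fun {u z} h => by
    obtain ⟨p, -, h1⟩ := mem_prE.1 h
    exact GM.rank_lt_of_pair_mem h1) (InvImage.wf ZFSet.rank wellFounded_lt)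

theorem rcl_ev_mem {M : Set ZFSet.{0}} (hM : IsZF M) {G x : ZFSet.{0}} (hG : G ∈ M)
    (hx : x ∈ M) : rcl (prE G) (wf_prE G) (GM.ev G) x ∈ M := by
  have hB := hM.base
  refine (rec_aux hM (pr := prE G) (wf_prE G) (F := GM.ev G) (G := fun _ g => im sn g)
    ?_ ?_ ?_ x hx).1
  · refine hM.sep' (Q := fun y v => ∃ p ∈ G, ZFSet.pair y p ∈ v 0)
      (hB.sUnion' (hB.sUnion' (DfnF.proj 0))) ?_
    refine hB.bex (Q := fun p w => ZFSet.pair (w 0) p ∈ Fin.tail w 0) (DfnF.const hG) ?_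
    exact Dfn.mem (hB.pair' (DfnF.proj 1) (DfnF.proj 0)) (DfnF.proj 2)
  · exact hM.im' (h := fun p _ => sn p) (DfnF.proj 1) (hM.sn' (DfnF.proj 0))
  · intro z
    ext u
    rw [GM.mem_ev, mem_im]
    constructor
    · rintro ⟨y, p, h1, h2, rfl⟩
      exact ⟨ZFSet.pair y (GM.ev G y), mem_gr.2 ⟨y, mem_prE.2 ⟨p, h2, h1⟩, rfl⟩,
        (sn_pair _ _).symm⟩
    · rintro ⟨q, hq, rfl⟩
      obtain ⟨y, hy, rfl⟩ := mem_gr.1 hq
      obtain ⟨p, hp, h1⟩ := mem_prE.1 hy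
      exact ⟨y, p, h1, hp, (sn_pair _ _).symm⟩

/-- The set `g` is a part of the evaluation, closed under the predecessors. -/
def Ap (M : Set ZFSet.{0}) (G g : ZFSet.{0}) : Prop :=
  ∀ v ∈ M, ∀ w ∈ M, pair v w ∈ g →
    (∀ u ∈ M, ∀ p ∈ G, pair u p ∈ v → ∃ s ∈ w, pair u s ∈ g) ∧
    ∀ s ∈ w, ∃ u ∈ M, ∃ p ∈ G, pair u p ∈ v ∧ pair u s ∈ g

theorem ap_eq {M : Set ZFSet.{0}} (hM : IsZF M) {G g : ZFSet.{0}} (hg : g ∈ M)
    (h : Ap M G g) : ∀ v w, pair v w ∈ g → w = GM.ev G v := by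
  intro v
  induction v using (InvImage.wf ZFSet.rank wellFounded_lt).induction with
  | _ v ih =>
  intro w hw
  obtain ⟨hv, hwM⟩ := hM.of_pair_mem (hM.trans _ hg _ hw)
  obtain ⟨h1, h2⟩ := h v hv w hwM hw
  ext s
  rw [GM.mem_ev]
  constructor
  · intro hs
    obtain ⟨u, hu, p, hp, h3, h4⟩ := h2 s hs
    exact ⟨u, p, h3, hp, (ih u (GM.rank_lt_of_pair_mem h3) s h4).symm⟩
  · rintro ⟨u, p, h3, hp, rfl⟩
    have hu := (hM.of_pair_mem (hM.trans _ hv _ h3)).1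
    obtain ⟨s, hs, h4⟩ := h1 u hu p hp h3
    rwa [← ih u (GM.rank_lt_of_pair_mem h3) s h4]

theorem ap_rcl {M : Set ZFSet.{0}} (hM : IsZF M) {G x : ZFSet.{0}} :
    Ap M G (rcl (prE G) (wf_prE G) (GM.ev G) x) := by
  intro v hv w hw hvw
  have h1 : w = GM.ev G v := by
    obtain ⟨u, h2⟩ := rcl_form (wf_prE G) _ _ hvw
    obtain ⟨rfl, rfl⟩ := ZFSet.pair_inj.1 h2
    rfl
  subst h1
  have h2 := rcl_closed (wf_prE G) x v _ hvw
  constructor
  · intro u hu p hp h3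
    exact ⟨GM.ev G u, GM.mem_ev.2 ⟨u, p, h3, hp, rfl⟩, h2 u (mem_prE.2 ⟨p, hp, h3⟩)⟩
  · intro s hs
    obtain ⟨u, p, h3, hp, rfl⟩ := GM.mem_ev.1 hs
    exact ⟨u, (hM.of_pair_mem (hM.trans _ hv _ h3)).1, p, hp, h3, h2 u (mem_prE.2 ⟨p, hp, h3⟩)⟩

theorem ev_iff {M : Set ZFSet.{0}} (hM : IsZF M) {G x z : ZFSet.{0}} (hG : G ∈ M)
    (hx : x ∈ M) : (∃ g ∈ M, Ap M G g ∧ pair x z ∈ g) ↔ z = GM.ev G x := by
  constructor
  · rintro ⟨g, hg, h1, h2⟩
    exact ap_eq hM hg h1 x z h2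
  · rintro rfl
    exact ⟨_, rcl_ev_mem hM hG hx, ap_rcl hM, rcl_self x⟩

theorem nd_ev {S : Set (PName P)} {n : ℕ} {F G : Pkg P → (Fin n → ZFSet.{0}) → ZFSet.{0}}
    (hF : NDfnF S F) (hG : NDfnF S G) : NDfnF S fun π v => GM.ev (F π v) (G π v) := by
  refine NDfnF.comp2 (f := GM.ev) ?_ hF hG
  have h1 : NDfn S fun (π : Pkg P) (w : Fin 3 → ZFSet.{0}) =>
      ∃ g ∈ π.W, (∀ v ∈ π.W, ∀ y ∈ π.W, pair v y ∈ g →
        (∀ u ∈ π.W, ∀ p ∈ w 1, pair u p ∈ v → ∃ s ∈ y, pair u s ∈ g) ∧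
        ∀ s ∈ y, ∃ u ∈ π.W, ∃ p ∈ w 1, pair u p ∈ v ∧ pair u s ∈ g) ∧ pair (w 2) (w 0) ∈ g := by
    (repeat' first
      | assumption
      | exact NDfnF.proj _
      | apply NDfn.not | apply NDfn.and | apply NDfn.or | apply NDfn.imp | apply NDfn.iff
      | apply NDfn.ex | apply NDfn.all
      | apply NDfn.bex | apply NDfn.ball
      | apply NDfn.eq | apply NDfn.mem | apply NDfnF.pair)
  refine ⟨fun π _ v hv => ?_, h1.congr fun π _ v hv => ?_⟩
  · have h2 := rcl_ev_mem π.isZF_W (hv 0) (hv 1)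
    exact (π.isZF_W.of_pair_mem (π.isZF_W.trans _ h2 _ (rcl_self _))).2
  · exact ev_iff π.isZF_W (hv 1) (hv 2)

theorem mem_sg {x : PName P} {z : ZFSet.{0}} :
    z ∈ sg x ↔ ∃ y d, El x y d ∧ z = pair (sg y) (cP d) := by
  cases x with
  | mk ι x d =>
    rw [sg, ZFSet.mem_range]
    constructor
    · rintro ⟨i, rfl⟩
      exact ⟨x i, d i, ⟨i, rfl, rfl⟩, rfl⟩
    · rintro ⟨_, _, ⟨i, rfl, rfl⟩, rfl⟩
      exact ⟨i, rfl⟩

theorem nd_mem (x y : PName P) :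
    ND {GN P, check (sg y), x} fun π => GM.ev (π.val (GN P)) (π.hat (sg y)) ∈ π.val x := by
  have h1 : GN P ∈ ({GN P, check (sg y), x} : Set (PName P)) := by simp
  have h2 : check (sg y) ∈ ({GN P, check (sg y), x} : Set (PName P)) := by simp
  have h3 : x ∈ ({GN P, check (sg y), x} : Set (PName P)) := by simp
  exact NDfn.mem (nd_ev (NDfnF.val h1) (NDfnF.hat h2)) (NDfnF.val h3)

end PB2

theorem ev_sg {π : Pkg P} (h : FP C c π) {x : PName P} (hx : x ∈ π.N) :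
    GM.ev (π.val (GN P)) (π.hat (sg x)) = π.val x := by
  induction x using el_ind generalizing π with
  | h x ih =>
    ext z
    rw [GM.mem_ev]
    constructor
    · rintro ⟨a, b, h1, h2, rfl⟩
      obtain ⟨a, ha, b, hb, rfl, rfl, h3⟩ := π.of_pair_mem_hat (h.sg x hx) h1
      obtain ⟨y, d, hd, h4⟩ := PB2.mem_sg.1 h3
      obtain ⟨rfl, rfl⟩ := ZFSet.pair_inj.1 h4
      obtain ⟨k, hk⟩ := (mem_GN π hb).1 h2
      by_contra hR
      have hSN : ({GN P, check (sg y), x} : Set (PName P)) ⊆ π.N := by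
        rintro w (rfl | rfl | rfl)
        · exact h.base (by simp [baseN])
        · exact ha
        · exact hx
      obtain ⟨k', hk'⟩ := fc_gen (PB2.nd_mem x y).not π hSN hR
      obtain ⟨π', hF, hA, h0⟩ := exists_fp C c ({y, GN P, check (sg y), x} : Set (PName P))
        (Set.toFinite _).countable (π.g (max k k'))
      have hS' : ({GN P, check (sg y), x} : Set (PName P)) ⊆ π'.N := fun w hw =>
        hA (Or.inr hw)
      have hy' : y ∈ π'.N := hA (by simp)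
      refine hk' π' hS' ⟨0, by rw [h0]; exact π.g_le_right k k'⟩ ?_
      rw [ih y d hd hF hy']
      exact π'.val_mem_val (n := 0) hy' hd (by rw [h0]; exact (π.g_le_left k k').trans hk)
    · intro hz
      obtain ⟨y, hy, d, hd, ⟨k, hk⟩, rfl⟩ := π.mem_val.1 hz
      obtain ⟨d', hd', hk', hZ⟩ := h.cc x hx y hy d k hd hk
      exact ⟨π.hat (sg y), π.hat (cP d'),
        (π.pair_mem_hat (h.sg y hy) hZ (h.sg x hx)).2 (PB2.mem_sg.2 ⟨y, d', hd', rfl⟩),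
        (mem_GN π hZ).2 ⟨k, hk'⟩, ih y d hd h hy⟩

end Pool.Agent.helper797_mt
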