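import Pool.Agent.helper797_mt.PB1
import Pool.Agent.helper797_mt.PB2
import Pool.Agent.W868.GM.Vg

/-!
# The extension is the least model that contains the generic set
-/

set_option autoImplicit false
set_option linter.unreachableTactic false
set_option linter.unusedTactic false
set_option linter.unusedSectionVars false

namespace Pool.Agent.helper797_mt

open Pool.Agent.W868 Pool.Agent.W868.PName Pool.Agent.TH770
open Pool.Agent.V11248.Pk (PC Normal)
open Pool.Agent.Helper669.Forcing (Down)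
open ZFSet (pair)
open Cardinal

variable {P T : Type} [Preorder P] [OrderTop P] {C : Cod P T} {c : T → ZFSet.{0}}

namespace PB3

theorem zP_Z {π : Pkg P} (h : FP C c π) : ZP P ∈ π.Z := h.base (by simp [baseN])

theorem zT_Z {π : Pkg P} (h : FP C c π) : ZT c ∈ π.Z := h.base (by simp [baseN])

theorem zEp_Z {π : Pkg P} (h : FP C c π) : ZEp C c ∈ π.Z := h.base (by simp [baseN])

theorem zEm_Z {π : Pkg P} (h : FP C c π) : ZEm C c ∈ π.Z := h.base (by simp [baseN])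

theorem mem_zEp (hc : Function.Injective c) {p : P} {t : T} :
    pair (cP p) (c t) ∈ ZEp C c ↔ C.Ep p t := by
  unfold ZEp
  rw [ZFSet.mem_range]
  constructor
  · rintro ⟨⟨⟨q, s⟩, hqs⟩, h1⟩
    obtain ⟨h2, h3⟩ := ZFSet.pair_inj.1 h1
    have h4 := cP_inj h2
    have h5 := hc h3
    simp only at h4 h5
    subst h4 h5
    exact hqs
  · intro h1
    exact ⟨⟨(p, t), h1⟩, rfl⟩

theorem mem_zEm (hc : Function.Injective c) {p : P} {t : T} :
    pair (cP p) (c t) ∈ ZEm C c ↔ C.Em p t := by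
  unfold ZEm
  rw [ZFSet.mem_range]
  constructor
  · rintro ⟨⟨⟨q, s⟩, hqs⟩, h1⟩
    obtain ⟨h2, h3⟩ := ZFSet.pair_inj.1 h1
    have h4 := cP_inj h2
    have h5 := hc h3
    simp only at h4 h5
    subst h4 h5
    exact hqs
  · intro h1
    exact ⟨⟨(p, t), h1⟩, rfl⟩

/-- The generic filter, defined from the generic set. -/
def QG (π : Pkg P) (C : Cod P T) (c : T → ZFSet.{0}) (z : ZFSet.{0}) : Prop :=
  ∀ t ∈ π.hat (ZT c), (pair z t ∈ π.hat (ZEp C c) → t ∈ π.val (AN C c)) ∧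
    (pair z t ∈ π.hat (ZEm C c) → ¬ t ∈ π.val (AN C c))

theorem qG_iff {π : Pkg P} (h : FP C c π) (hc : Function.Injective c) {p : P}
    (hp : cP p ∈ π.Z) : QG π C c (π.hat (cP p)) ↔ π.hat (cP p) ∈ π.val (GN P) := by
  rw [mem_GN_iff h hc hp]
  constructor
  · intro h1 t ht
    have h2 : π.hat (c t) ∈ π.hat (ZT c) :=
      (π.hat_mem_hat ht (zT_Z h)).2 (ZFSet.mem_range.2 ⟨t, rfl⟩)
    obtain ⟨h3, h4⟩ := h1 _ h2
    rw [← π.hat_pair hp ht, π.hat_mem_hat (π.pair_mem_Z hp ht) (zEp_Z h), mem_zEp hc] at h3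
    rw [← π.hat_pair hp ht, π.hat_mem_hat (π.pair_mem_Z hp ht) (zEm_Z h), mem_zEm hc] at h4
    exact ⟨h3, h4⟩
  · intro h1 s hs
    obtain ⟨y, hy, hyZ, rfl⟩ := π.mem_hat.1 hs
    obtain ⟨t, rfl⟩ := ZFSet.mem_range.1 hy
    rw [← π.hat_pair hp hyZ, π.hat_mem_hat (π.pair_mem_Z hp hyZ) (zEp_Z h), mem_zEp hc,
      π.hat_mem_hat (π.pair_mem_Z hp hyZ) (zEm_Z h), mem_zEm hc]
    exact h1 t hyZ

theorem gn_eq {π : Pkg P} (h : FP C c π) (hc : Function.Injective c) :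
    ZFSet.sep (QG π C c) (π.hat (ZP P)) = π.val (GN P) := by
  ext z
  rw [ZFSet.mem_sep]
  constructor
  · rintro ⟨h1, h2⟩
    obtain ⟨y, hy, hyZ, rfl⟩ := π.mem_hat.1 h1
    obtain ⟨p, rfl⟩ := ZFSet.mem_range.1 hy
    exact (qG_iff h hc hyZ).1 h2
  · intro h1
    obtain ⟨p, hp, rfl, -⟩ := of_mem_GN π h1
    exact ⟨(π.hat_mem_hat hp (zP_Z h)).2 (ZFSet.mem_range.2 ⟨p, rfl⟩), (qG_iff h hc hp).2 h1⟩

theorem gn_mem {π : Pkg P} (h : FP C c π) (hc : Function.Injective c) {N : Set ZFSet.{0}}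
    (hN : IsZF N) (hV : π.V ⊆ N) (hA : π.val (AN C c) ∈ N) : π.val (GN P) ∈ N := by
  have hB := hN.base
  have hVm : ∀ x ∈ π.Z, π.hat x ∈ N := fun x hx => hV ⟨x, hx, rfl⟩
  have h1 := hVm _ (zP_Z h)
  have h2 := hVm _ (zT_Z h)
  have h3 := hVm _ (zEp_Z h)
  have h4 := hVm _ (zEm_Z h)
  rw [← gn_eq h hc]
  refine hN.sep_mem ?_ h1
  have h5 : Dfn N N fun w : Fin 1 → ZFSet.{0} =>
      ∀ t ∈ π.hat (ZT c), (pair (w 0) t ∈ π.hat (ZEp C c) → t ∈ π.val (AN C c)) ∧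
        (pair (w 0) t ∈ π.hat (ZEm C c) → ¬ t ∈ π.val (AN C c)) := by
    (repeat' first
      | assumption
      | exact DfnF.proj _
      | exact DfnF.const (by assumption)
      | exact Dfn.prop _
      | apply Dfn.not | apply Dfn.and | apply Dfn.or | apply Dfn.imp | apply Dfn.iff
      | apply hB.bex | apply hB.ball | apply Dfn.ex | apply Dfn.all
      | apply Dfn.eq | apply Dfn.mem | apply hB.pair')
  exact h5

end PB3

theorem W_least {π : Pkg P} (h : FP C c π) (hc : Function.Injective c) {N : Set ZFSet.{0}}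
    (hN : IsZF N) (hV : π.V ⊆ N) (hA : π.val (AN C c) ∈ N) : π.W ⊆ N := by
  rintro _ ⟨x, hx, rfl⟩
  rw [← ev_sg h hx]
  exact GM.ev_mem hN (PB3.gn_mem h hc hN hV hA) (hV ⟨_, h.sg x hx, rfl⟩)

end Pool.Agent.helper797_mt
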