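import Pool.Agent.helper797_mt.Pos
import Pool.Agent.W868.DZero

/-!
# The cardinals of the ground model
-/

set_option autoImplicit false
set_option linter.unreachableTactic false
set_option linter.unusedTactic false
set_option linter.unusedSectionVars false

namespace Pool.Agent.helper797_mt

open Pool.Agent.W868 Pool.Agent.W868.PName Pool.Agent.TH770
open Pool.Agent.V11248.Pk (PC Normal)
open Pool.Agent.Helper669.Forcing (Down)
open ZFSet (pair)
open Cardinal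

variable {P : Type} [Preorder P] [OrderTop P] (π : Pkg P)

namespace PC1

theorem over_empty {S : Set ZFSet.{0}} : {m : ℕ} → (ψ : Fml Empty m) →
    ψ.Over (Empty.elim ⁻¹' S)
  | _, .mem _ _ => ⟨fun a => a.elim, fun a => a.elim⟩
  | _, .eq _ _ => ⟨fun a => a.elim, fun a => a.elim⟩
  | _, .neg φ => over_empty φ
  | _, .and φ ψ => ⟨over_empty φ, over_empty ψ⟩
  | _, .ex φ => over_empty φ

/-- Elementarity for the relations that are defined by one formula in all transitive classes. -/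
theorem transfer {n : ℕ} {R : (Fin n → ZFSet.{0}) → Prop} (h : D0 R) {v : Fin n → ZFSet.{0}}
    (hv : ∀ i, v i ∈ π.Z) : R (π.hat ∘ v) ↔ R v := by
  obtain ⟨φ, hφ⟩ := h
  have h1 := π.sat_V (φ.map (Empty.elim : Empty → ZFSet.{0})) ((over_map _ _).2 (over_empty φ))
    v hv
  rw [sat_map, sat_map] at h1
  have e1 : (π.hat ∘ Empty.elim : Empty → ZFSet.{0}) = Empty.elim := funext fun a => a.elim
  have e2 : (id ∘ Empty.elim : Empty → ZFSet.{0}) = Empty.elim := funext fun a => a.elim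
  rw [e1, e2] at h1
  exact ((hφ π.V (fun x hx y hy => π.trans_V hx hy) (π.hat ∘ v)
    (fun i => π.of_hat_mem_V (hv i))).symm.trans h1).trans
    (hφ Set.univ (fun _ _ _ _ => trivial) v (fun _ => trivial))

theorem d0_isInj {n : ℕ} {F G H : (Fin n → ZFSet.{0}) → ZFSet.{0}} (hF : D0v F) (hG : D0v G)
    (hH : D0v H) : D0 fun v => IsInj (F v) (G v) (H v) := by
  have h : D0 fun v => (∀ p ∈ H v, ∃ a ∈ F v, ∃ b ∈ G v, p = pair a b) ∧
      (∀ a ∈ F v, ∃ b ∈ G v, pair a b ∈ H v ∧ ∀ c ∈ G v, pair a c ∈ H v → c = b) ∧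
      ∀ a ∈ F v, ∀ b ∈ F v, ∀ c ∈ G v, pair a c ∈ H v → pair b c ∈ H v → a = b := by
    have h1 := hF.tail
    have h2 := h1.tail
    have h3 := h2.tail
    have k1 := hG.tail
    have k2 := k1.tail
    have k3 := k2.tail
    have l1 := hH.tail
    have l2 := l1.tail
    have l3 := l2.tail
    (repeat' first
      | assumption
      | exact D0v.proj _
      | apply D0.not | apply D0.and | apply D0.or | apply D0.imp | apply D0.iff
      | apply D0.bex | apply D0.ball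
      | apply D0.isPair | apply D0.pairMem | apply D0.eq | apply D0.mem)
  refine h.congr fun v => ?_
  constructor
  · rintro ⟨h1, h2, h3⟩
    have hsub : H v ⊆ ZFSet.prod (F v) (G v) := fun p hp => ZFSet.mem_prod.2 (h1 p hp)
    refine ⟨⟨hsub, fun a ha => ?_⟩, fun a b c hac hbc => ?_⟩
    · obtain ⟨b, hb, hab, hu⟩ := h2 a ha
      exact ⟨b, hab, fun c hc => hu c (ZFSet.pair_mem_prod.1 (hsub hc)).2 hc⟩
    · have e1 := ZFSet.pair_mem_prod.1 (hsub hac)
      have e2 := ZFSet.pair_mem_prod.1 (hsub hbc)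
      exact h3 a e1.1 b e2.1 c e1.2 hac hbc
  · rintro ⟨⟨h1, h2⟩, h3⟩
    refine ⟨fun p hp => ZFSet.mem_prod.1 (h1 hp), fun a ha => ?_, fun a _ b _ c _ hac hbc =>
      h3 a b c hac hbc⟩
    obtain ⟨b, hb, hu⟩ := h2 a ha
    exact ⟨b, (ZFSet.pair_mem_prod.1 (h1 hb)).2, hb, fun c _ hc => hu c hc⟩

theorem card_le_of_isInj {x y f : ZFSet.{0}} (h : IsInj x y f) : x.card ≤ y.card := by
  have h1 : ∀ z : {z // z ∈ x}, ∃ w, w ∈ y ∧ pair z.1 w ∈ f := by
    rintro ⟨z, hz⟩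
    obtain ⟨w, hw, -⟩ := h.1.2 z hz
    exact ⟨w, (ZFSet.pair_mem_prod.1 (h.1.1 hw)).2, hw⟩
  choose g hg1 hg2 using h1
  have hinj : Function.Injective fun z : {z // z ∈ x} => (⟨g z, hg1 z⟩ : {w // w ∈ y}) := by
    intro a b hab
    have e : g a = g b := congrArg Subtype.val hab
    have h2 := hg2 b
    rw [← e] at h2
    exact Subtype.ext (h.2 _ _ _ (hg2 a) h2)
  rw [ZFSet.card, ZFSet.card, Cardinal.le_def]
  exact ⟨((equivShrink {z // z ∈ x}).symm.toEmbedding.trans ⟨_, hinj⟩).trans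
    (equivShrink {z // z ∈ y}).toEmbedding⟩

end PC1

/-- The ordinals of the ground model. -/
theorem isOrdinal_of_hat {x : ZFSet.{0}} (hx : x ∈ π.Z) (h : (π.hat x).IsOrdinal) :
    x.IsOrdinal :=
  (PC1.transfer π (D0.isOrdinal (D0v.proj (0 : Fin 1))) (v := ![x]) (by
    intro i
    fin_cases i
    exact hx)).1 h

/-- The cardinals of the ground model. -/
theorem isCard_V {x : ZFSet.{0}} (hx : x ∈ π.Z) :
    IsCard π.V (π.hat x) ↔ x.IsOrdinal ∧ ∀ b ∈ x, b.card < x.card := by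
  have hB := isBase_univ
  constructor
  · rintro ⟨-, h1, h2⟩
    refine ⟨isOrdinal_of_hat π hx h1, ?_⟩
    by_contra hcon
    push Not at hcon
    obtain ⟨b, hb, hbx⟩ := hcon
    obtain ⟨f, hf⟩ := exists_isInj hbx
    have hd : Dfn π.Z Set.univ fun w : Fin 1 → ZFSet.{0} =>
        w 0 ∈ x ∧ ∃ f ∈ Set.univ, IsInj x (w 0) f := by
      apply Dfn.and
      · exact Dfn.mem (DfnF.proj 0) (DfnF.const' trivial hx)
      · apply Dfn.ex
        exact hB.isInj' (DfnF.const' trivial hx) (DfnF.proj 1) (DfnF.proj 0)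
    obtain ⟨c, hc, h3, g, -, h4⟩ := π.exists_Z
      (Q := fun c => c ∈ x ∧ ∃ f ∈ Set.univ, IsInj x c f) hd ⟨b, hb, f, trivial, hf⟩
    exact h2 (π.hat c) ((π.hat_mem_hat hc hx).2 h3) (π.exists_inj_V hx hc ⟨g, h4⟩)
  · rintro ⟨h1, h2⟩
    refine ⟨π.of_hat_mem_V hx, π.hat_isOrdinal h1, ?_⟩
    rintro β hβ ⟨f, hf, hinj⟩
    obtain ⟨b, hb, hbZ, rfl⟩ := π.mem_hat.1 hβ
    obtain ⟨g, hg, rfl⟩ := hf
    have h3 : IsInj x b g := (PC1.transfer π (PC1.d0_isInj (D0v.proj (0 : Fin 3))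
      (D0v.proj (1 : Fin 3)) (D0v.proj (2 : Fin 3))) (v := ![x, b, g]) (by
        intro i
        fin_cases i
        · exact hx
        · exact hbZ
        · exact hg)).1 hinj
    exact absurd (h2 b hb) (not_lt.2 (PC1.card_le_of_isInj h3))

namespace PC1

theorem card_cz (c : Cardinal.{0}) : (cz c).card = c := by
  rw [cz, Ordinal.card_toZFSet, Cardinal.card_ord]

theorem lt_cz {c : Cardinal.{0}} {b : ZFSet.{0}} (hb : b ∈ cz c) : b.card < (cz c).card := by
  obtain ⟨a, ha, rfl⟩ := Ordinal.mem_toZFSet_iff.1 hb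
  rw [card_cz, Ordinal.card_toZFSet]
  exact Cardinal.lt_ord.1 ha

theorem isCard_cz {c : Cardinal.{0}} (h : cz c ∈ π.Z) : IsCard π.V (π.hat (cz c)) :=
  (isCard_V π h).2 ⟨ZFSet.isOrdinal_toZFSet _, fun _ hb => lt_cz hb⟩

end PC1

theorem isNextCard_V {lam : Cardinal.{0}} (h0 : ℵ₀ ≤ lam) (h : cz lam ∈ π.Z)
    (h' : cz (Order.succ lam) ∈ π.Z) :
    IsNextCard π.V (π.hat (cz lam)) (π.hat (cz (Order.succ lam))) := by
  refine ⟨PC1.isCard_cz π h', ?_, ?_⟩
  · rw [π.hat_mem_hat h h', cz, cz, Ordinal.toZFSet_mem_toZFSet_iff, Cardinal.ord_lt_ord]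
    exact Order.lt_succ lam
  · intro ν hν hc
    obtain ⟨b, hb, hbZ, rfl⟩ := π.mem_hat.1 hν
    obtain ⟨a, ha, rfl⟩ := Ordinal.mem_toZFSet_iff.1 hb
    have h1 := ((isCard_V π hbZ).1 hc).2
    rw [π.hat_mem_hat hbZ h, π.hat_inj hbZ h]
    rcases lt_trichotomy a lam.ord with h2 | h2 | h2
    · exact Or.inl (Ordinal.toZFSet_mem_toZFSet_iff.2 h2)
    · right
      rw [h2, cz]
    · exfalso
      have h3 := h1 (cz lam) (Ordinal.toZFSet_mem_toZFSet_iff.2 h2)
      rw [PC1.card_cz, Ordinal.card_toZFSet] at h3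
      have h4 := Cardinal.lt_ord.1 ha
      exact absurd (Order.lt_succ_iff.1 h4) (not_le.2 h3)

theorem isInfCard_V {lam : Cardinal.{0}} (h0 : ℵ₀ ≤ lam) (h : cz lam ∈ π.Z) :
    IsInfCard π.V (π.hat (cz lam)) := by
  refine ⟨PC1.isCard_cz π h, ?_⟩
  rw [← π.hat_omega]
  refine π.hat_subset ?_
  rw [omega_eq, cz, Ordinal.toZFSet_subset_toZFSet_iff, ← Cardinal.ord_aleph0,
    Cardinal.ord_le_ord]
  exact h0

end Pool.Agent.helper797_mt
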