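import Pool.Agent.helper797_mt.Pos

/-!
# Small cardinals are preserved
-/

set_option autoImplicit false
set_option linter.unreachableTactic false
set_option linter.unusedTactic false
set_option linter.unusedSectionVars false

namespace Pool.Agent.helper797_mt

open Pool.Agent.W868 Pool.Agent.W868.PName Pool.Agent.TH770
open Pool.Agent.V11248.Pk (PC Normal)
open Pool.Agent.Helper669.Forcing (Down)
open ZFSet (pair)
open Cardinal

variable {κ : Cardinal.{0}} {K : Type} [LinearOrder K] {U : Ultrafilter K} {C : Type} [Preorder C]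

namespace PE1

open Pool.Agent.V11248.Pk (compat decide_all diagList exists_shrink)

/-- `Lv U E n s`: for almost all `x₁`, ..., almost all `xₙ` some condition with the stem
`s ++ [x₁, ..., xₙ]` is in `E`. -/
def Lv (U : Ultrafilter K) (E : Set (PC U Set.univ)) : ℕ → List K → Prop
  | 0, s => ∃ t : PC U Set.univ, t.s = s ∧ t ∈ E
  | n + 1, s => {y | Lv U E n (s ++ [y])} ∈ U

theorem exists_lv (hN : Normal κ U) (E : Set (PC U Set.univ)) (t : PC U Set.univ)
    (hE : ∀ r ≤ t, ∃ r' ≤ r, r' ∈ E) : ∃ n, Lv U E n t.s := by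
  classical
  by_contra hcon
  push Not at hcon
  let Un : List K → Prop := fun s => ∀ n, ¬ Lv U E n s
  have hstep : ∀ s, Un s → {y | Un (s ++ [y])} ∈ U := by
    intro s hs
    refine Filter.mem_of_superset (hN.nat (A := fun n => {y | Lv U E n (s ++ [y])}ᶜ) ?_) ?_
    · intro n
      rcases Ultrafilter.mem_or_compl_mem U {y | Lv U E n (s ++ [y])} with h | h
      · exact absurd h (hs (n + 1))
      · exact h
    · intro y hy n
      exact hy n
  let A : List K → Set K := fun s => if Un s then {y | Un (s ++ [y])} else Set.univ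
  have hA : ∀ s, A s ∈ U := by
    intro s
    by_cases h : Un s
    · simp only [A]
      rw [if_pos h]
      exact hstep s h
    · simp only [A]
      rw [if_neg h]
      exact Filter.univ_mem
  obtain ⟨q, hq, hqs, hqA⟩ := exists_shrink t _ (diagList hN A hA)
  have key : ∀ l : List K, (q.s ++ l).Pairwise (· < ·) → (∀ x ∈ l, x ∈ q.A) → Un (q.s ++ l) := by
    intro l
    induction l using List.reverseRecOn with
    | nil =>
      intro _ _
      rw [List.append_nil, hqs]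
      exact hcon
    | append_singleton l y ih =>
      intro h1 h2
      rw [← List.append_assoc] at h1
      have h3 := List.pairwise_append.1 h1
      have h4 : Un (q.s ++ l) := ih h3.1 fun x hx => h2 x (by simp [hx])
      have h5 : y ∈ q.A := h2 y (by simp)
      rw [hqA] at h5
      have h6 : y ∈ A (q.s ++ l) := h5.2 (q.s ++ l) fun x hx => h3.2.2 x hx y (by simp)
      simp only [A] at h6
      rw [if_pos h4] at h6
      rw [← List.append_assoc]
      exact h6
  obtain ⟨r, hr, hrE⟩ := hE q hq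
  obtain ⟨l, h1, h2, _⟩ := id hr
  have h3 : Un (q.s ++ l) := key l (by rw [← h1]; exact r.sorted) h2
  exact h3 0 ⟨r, h1, hrE⟩

theorem common_stem (hN : Normal κ U) {Ξ : Type} (hΞ : #Ξ < κ) (E : Ξ → Set (PC U Set.univ)) :
    ∀ (n : ℕ) (s : List K), (∀ ξ, Lv U (E ξ) n s) →
      ∃ s' : List K, ∀ ξ, ∃ t : PC U Set.univ, t.s = s' ∧ t ∈ E ξ := by
  intro n
  induction n with
  | zero => exact fun s h => ⟨s, h⟩
  | succ n ih =>
    intro s h
    have h1 := hN.complete Ξ (fun ξ => {y | Lv U (E ξ) n (s ++ [y])}) hΞ h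
    obtain ⟨y, hy⟩ := Ultrafilter.nonempty_of_mem h1
    exact ih (s ++ [y]) fun ξ => Set.mem_iInter.1 hy ξ

theorem not_ccc (hC : CCC C) {Ξ : Type} (hΞ : ¬ Countable Ξ) (s : List K)
    (t : Ξ → PC U Set.univ) (q : Ξ → C) (ht : ∀ ξ, (t ξ).s = s)
    (D : Ξ → Set (PC U Set.univ × C)) (hd : ∀ ξ, Down (D ξ))
    (hf : ∀ ξ ξ' r, r ∈ D ξ → r ∈ D ξ' → ξ = ξ') (hD : ∀ ξ, (t ξ, q ξ) ∈ D ξ) : False := by
  have h1 : ∀ ξ ξ', (∃ r, r ≤ q ξ ∧ r ≤ q ξ') → ξ = ξ' := by
    rintro ξ ξ' ⟨r, hr, hr'⟩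
    obtain ⟨u, hu, hu', _⟩ := compat (p := t ξ) (q := t ξ') ((ht ξ).trans (ht ξ').symm)
    exact hf ξ ξ' (u, r) (hd ξ _ (hD ξ) _ ⟨hu, hr⟩) (hd ξ' _ (hD ξ') _ ⟨hu', hr'⟩)
  have h2 : (Set.range q).Countable := by
    refine hC _ ?_
    rintro _ ⟨ξ, rfl⟩ _ ⟨ξ', rfl⟩ hne h
    exact hne (by rw [h1 ξ ξ' h])
  have h3 : Function.Injective q := fun ξ ξ' h => h1 ξ ξ' ⟨q ξ, le_rfl, h.le⟩
  have h4 : Countable (Set.range q) := h2
  exact hΞ ((Equiv.ofInjective q h3).injective.countable)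

end PE1

open PE1 in
theorem small_case (hN : Normal κ U) (hC : CCC C) {X Y : Type} (hX : ℵ₀ ≤ #X) (hXY : #X < #Y)
    (hY : #Y < κ) (D : X → Y → Set (PC U Set.univ × C)) (p : PC U Set.univ × C)
    (hd : ∀ x y, Down (D x y)) (hf : ∀ x y y' r, r ∈ D x y → r ∈ D x y' → y = y')
    (ho : ∀ y, ∀ q ≤ p, ∃ r ≤ q, ∃ x, r ∈ D x y) : False := by
  classical
  let E : X → Y → Set (PC U Set.univ) := fun x y => {t | ∃ q ≤ p.2, (t, q) ∈ D x y}
  have hEd : ∀ x y, Down (E x y) := by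
    rintro x y t ⟨q, hq, h⟩ s hs
    exact ⟨q, hq, hd x y _ h _ ⟨hs, le_rfl⟩⟩
  let E' : X × Y → Set (PC U Set.univ) := fun z => {t | ∀ s ≤ t, ∃ r ≤ s, r ∈ E z.1 z.2}
  have hE'd : ∀ z, Down (E' z) := fun z t ht s hs u hu => ht u (hu.trans hs)
  have hE'r : ∀ z, Pool.Agent.V11248.OS.Reg (E' z) := by
    intro z t ht s hs
    obtain ⟨r, hr, h⟩ := ht s hs
    obtain ⟨u, hu, h'⟩ := h r le_rfl
    exact ⟨u, hu.trans hr, h'⟩
  have hc : #(X × Y) < κ := by
    rw [mk_prod, lift_id, lift_id]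
    exact (mul_le_max_of_aleph0_le_left hX).trans_lt (max_lt (hXY.trans hY) hY)
  obtain ⟨t, ht, hts, hdec⟩ := Pool.Agent.V11248.Pk.decide_all hN hc E' hE'd hE'r p.1
  have h1 : ∀ y, ∃ x, t ∈ E' (x, y) := by
    intro y
    obtain ⟨r, hr, x, hx⟩ := ho y (t, p.2) ⟨ht, le_rfl⟩
    refine ⟨x, ?_⟩
    rcases hdec (x, y) with h | h
    · exact h
    · exfalso
      refine h r.1 hr.1 fun s hs => ⟨s, le_rfl, ?_⟩
      exact hEd x y r.1 ⟨r.2, hr.2, hx⟩ s hs
  choose f hf1 using h1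
  obtain ⟨x, hx⟩ := infinite_pigeonhole_card_lt f hXY (hX.trans hXY.le)
  have h2 : ∀ y : f ⁻¹' {x}, ∃ n, Lv U (E x y.1) n t.s := by
    rintro ⟨y, hy⟩
    have hy' : f y = x := hy
    refine exists_lv hN _ t fun r hr => ?_
    have := hf1 y
    rw [hy'] at this
    exact this r hr
  choose n hn using h2
  have h3 : ¬ Countable (f ⁻¹' {x}) := fun h =>
    absurd (hX.trans_lt hx) (not_lt.2 (mk_le_aleph0_iff.2 h))
  obtain ⟨m, hm⟩ : ∃ m, ¬ (n ⁻¹' {m}).Countable := by
    by_contra hcon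
    push Not at hcon
    apply h3
    have : (Set.univ : Set (f ⁻¹' {x})).Countable := by
      have := Set.countable_iUnion hcon
      refine this.mono fun y _ => Set.mem_iUnion.2 ⟨n y, rfl⟩
    exact Set.countable_univ_iff.1 this
  have hcard : #(n ⁻¹' {m}) < κ :=
    ((mk_set_le _).trans (mk_set_le _)).trans_lt hY
  obtain ⟨s, hs⟩ := common_stem hN hcard (fun y => E x y.1.1) m t.s (by
    rintro ⟨y, hy⟩
    have : n y = m := hy
    have h := hn y
    rw [this] at h
    exact h)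
  choose u hu1 hu2 using hs
  choose q hq1 hq2 using hu2
  exact not_ccc hC hm s u q hu1 (fun y => D x y.1.1) (fun y => hd _ _)
    (fun y y' r h h' => Subtype.ext (Subtype.ext (hf x _ _ r h h'))) hq2

end Pool.Agent.helper797_mt
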