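import Pool.Agent.V11248.Pk.Cond
import Pool.Agent.TH770.Sem
import Pool.Agent.W868.Cohen
import Pool.Agent.W868.GM.Dfs
import Pool.Agent.helper797_mt.Defs

/-!
# The notion of forcing, the names, and the packages
-/

set_option autoImplicit false

namespace Pool.Agent.helper797_mt

open Pool.Agent.W868 Pool.Agent.W868.PName Pool.Agent.TH770
open Pool.Agent.V11248.Pk (PC Normal)
open Pool.Agent.Helper669.Forcing (Down)
open ZFSet (pair)
open Cardinal

/-! ### Notions of forcing whose generic filter is coded by a subset of `T` -/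

/-- `Ep p t`: the condition `p` says that `t` is in the generic set; `Em p t`: it says that `t` is
not in it. -/
structure Cod (P T : Type) [Preorder P] where
  Ep : P → T → Prop
  Em : P → T → Prop
  downp : ∀ p t, Ep p t → ∀ q ≤ p, Ep q t
  downm : ∀ p t, Em p t → ∀ q ≤ p, Em q t
  contra : ∀ p t, Ep p t → Em p t → False
  dense : ∀ p r, ∃ s ≤ r, s ≤ p ∨ (∃ t, Ep p t ∧ Em s t) ∨ ∃ t, Em p t ∧ Ep s t

/-- The code of a condition. -/
noncomputable def cP {P : Type} (p : P) : ZFSet.{0} :=
  (Ordinal.typein (α := P) WellOrderingRel p).toZFSet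

theorem cP_inj {P : Type} {p q : P} (h : cP p = cP q) : p = q :=
  Ordinal.typein_injective (α := P) WellOrderingRel (Ordinal.toZFSet_injective h)

section names

variable {P T : Type} [Preorder P] [OrderTop P] (C : Cod P T) (c : T → ZFSet.{0})

/-- The name of the generic subset of `T` (coded by `c`). -/
noncomputable def AN : PName P :=
  PName.mk {i : P × T // C.Ep i.1 i.2} (fun i => check (c i.1.2)) (fun i => i.1.1)

variable (P) in
/-- The name of the generic filter (coded by `cP`). -/
noncomputable def GN : PName P := PName.mk P (fun p => check (cP p)) id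

variable (P) in
/-- The set of the codes of the conditions. -/
noncomputable def ZP : ZFSet.{0} := ZFSet.range fun p : P => cP p

/-- The set of the codes of the elements of `T`. -/
noncomputable def ZT : ZFSet.{0} := ZFSet.range c

/-- The relation `Ep`, coded. -/
noncomputable def ZEp : ZFSet.{0} :=
  ZFSet.range fun i : {i : P × T // C.Ep i.1 i.2} => pair (cP i.1.1) (c i.1.2)

/-- The relation `Em`, coded. -/
noncomputable def ZEm : ZFSet.{0} :=
  ZFSet.range fun i : {i : P × T // C.Em i.1 i.2} => pair (cP i.1.1) (c i.1.2)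

/-- The code of a name: its evaluation is `GM.ev`. -/
noncomputable def sg : PName P → ZFSet.{0}
  | .mk _ x d => ZFSet.range fun i => pair (sg (x i)) (cP (d i))

/-- Closure under codes of names. -/
noncomputable def rSg : Rule P := fun q => match q with
  | ⟨_, .mem s _, v, p⟩ => (check (sg (tv v s)), p)
  | q => (emp, q.p)

open Classical in
/-- Closure under codes of the conditions in names. -/
noncomputable def rCc : Rule P := fun q => match q with
  | ⟨_, .mem s t, v, p⟩ =>
    if h : ∃ d, El (tv v t) (tv v s) d ∧ p ≤ d then (check (cP h.choose), p) else (emp, p)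
  | q => (emp, q.p)

open Classical in
/-- Closure under the children of names. -/
noncomputable def rCh : Rule P := fun q => match q with
  | ⟨_, .mem s t, v, p⟩ =>
    if h : ∃ y, ∃ d, El (tv v s) y d ∧ tv v t = check (pair (sg y) (cP d)) then (h.choose, p)
    else (emp, p)
  | q => (emp, q.p)

/-- The names of the parameters. -/
noncomputable def baseN : Set (PName P) :=
  {AN C c, GN P, check (ZP P), check (ZT c), check (ZEp C c), check (ZEm C c)}

/-- The packages that are closed under the codes of names. -/
structure FP (π : Pkg P) : Prop where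
  base : baseN C c ⊆ π.N
  sg : ∀ x ∈ π.N, sg x ∈ π.Z
  cc : ∀ x ∈ π.N, ∀ y ∈ π.N, ∀ d k, El x y d → π.g k ≤ d →
    ∃ d', El x y d' ∧ π.g k ≤ d' ∧ cP d' ∈ π.Z
  ch : ∀ x ∈ π.N, ∀ y d, El x y d → pair (helper797_mt.sg y) (cP d) ∈ π.Z →
    ∃ y' ∈ π.N, ∃ d', El x y' d' ∧
      pair (helper797_mt.sg y') (cP d') = pair (helper797_mt.sg y) (cP d)

end names

/-! ### Cardinals -/

/-- No condition forces a partial function of `X` onto `Y` if `X` is smaller than `Y`. -/
def NoOnto (P : Type) [Preorder P] : Prop :=
  ∀ (X Y : Type) (D : X → Y → Set P) (p : P), #X < #Y → (∀ x y, Down (D x y)) →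
    (∀ x y y' r, r ∈ D x y → r ∈ D x y' → y = y') →
    (∀ y, ∀ q ≤ p, ∃ r ≤ q, ∃ x, r ∈ D x y) → False

/-- The von Neumann ordinal of a cardinal. -/
noncomputable def cz (c : Cardinal.{0}) : ZFSet.{0} := c.ord.toZFSet

/-! ### Prikry forcing times Cohen forcing -/

section prikry

variable {K : Type} [LinearOrder K] {U : Ultrafilter K}

instance : OrderTop (PC U Set.univ) where
  top := ⟨[], Set.univ, Filter.univ_mem, Set.Subset.rfl, by simp, by simp, by simp⟩
  le_top p := ⟨p.s, by simp [Top.top], fun _ _ => Set.mem_univ _, Set.subset_univ _⟩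

/-- Prikry forcing times Cohen forcing. -/
abbrev PP (U : Ultrafilter K) (L : Type) : Type := PC U Set.univ × Coh L

/-- The condition says that the point is in the generic set. -/
def EpP {L : Type} (p : PP U L) : (ℕ × K) ⊕ L → Prop
  | Sum.inl (n, x) => p.1.s[n]? = some x
  | Sum.inr l => (l, true) ∈ p.2.1

/-- The condition says that the point is not in the generic set. -/
def EmP {L : Type} (p : PP U L) : (ℕ × K) ⊕ L → Prop
  | Sum.inl (n, x) => (∃ y, p.1.s[n]? = some y ∧ y ≠ x) ∨ (p.1.s.length ≤ n ∧ x ∉ p.1.A)
  | Sum.inr l => (l, false) ∈ p.2.1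

end prikry

/-! ### The family of functions and the reals -/

section fam

variable {I K L : Type}

/-- The family is a family of injective functions any two of which are eventually different. -/
structure EvDiff [LinearOrder K] (B : I → K → L) : Prop where
  inj : ∀ i, Function.Injective (B i)
  diff : ∀ i j, i ≠ j → ∃ a, ∀ x, a ≤ x → B i x ≠ B j x

variable (c : (ℕ × K) ⊕ L → ZFSet.{0}) (B : I → K → L)

/-- The ternary relation which gives the real number `i`. -/
noncomputable def RI (i : I) : ZFSet.{0} :=
  ZFSet.range fun t : ℕ × K => pair (nat t.1) (pair (c (Sum.inl t)) (c (Sum.inr (B i t.2))))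

/-- All the relations `RI`; `e i` is the code of `i`. -/
noncomputable def RR (e : I → ZFSet.{0}) : ZFSet.{0} :=
  ZFSet.range fun t : I × (ℕ × K) =>
    pair (e t.1) (pair (nat t.2.1) (pair (c (Sum.inl t.2)) (c (Sum.inr (B t.1 t.2.2)))))

/-- The real which is defined from the relation `R` and the set `A`. -/
noncomputable def rl (R A : ZFSet.{0}) : ZFSet.{0} :=
  ZFSet.sep (fun n => ∃ α ∈ A, ∃ β ∈ A, pair n (pair α β) ∈ R) ZFSet.omega

end fam

end Pool.Agent.helper797_mt
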